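import Pool.Agent.H92.Carlitz.Minors

/-! From the divisibility of minors to the structure of the cokernel. -/

namespace Pool.Agent.H92.Carlitz

open Finset Module

theorem strictMono_val_le {r b : ℕ} (g : Fin r → Fin b) (hg : StrictMono g) (y : Fin r) :
    (y : ℕ) ≤ (g y : ℕ) := by
  have key : ∀ n (hn : n < r), n ≤ (g ⟨n, hn⟩ : ℕ) := by
    intro n
    induction n with
    | zero => intro _; exact Nat.zero_le _
    | succ n ih =>
      intro hn
      have h1 := ih (by omega)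
      have h2 : g ⟨n, by omega⟩ < g ⟨n + 1, hn⟩ := hg (by simp [Fin.lt_def])
      rw [Fin.lt_def] at h2
      omega
  exact key y y.2

theorem sum_sorted_le {r b : ℕ} (hr : r ≤ b) (f : Fin b → ℕ) (hf : Monotone f)
    (J : Fin r → Fin b) (hJ : Function.Injective J) :
    ∑ y : Fin r, f (Fin.castLE hr y) ≤ ∑ y, f (J y) := by
  rw [← Equiv.sum_comp (Tuple.sort J) (fun y => f (J y))]
  have hmono : StrictMono (J ∘ Tuple.sort J) :=
    (Tuple.monotone_sort J).strictMono_of_injective (hJ.comp (Tuple.sort J).injective)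
  refine sum_le_sum fun y _ => hf ?_
  rw [Fin.le_def]
  exact strictMono_val_le _ hmono y

/-- Recovering the sorted exponents from the minimal partial sums. -/
theorem sorted_exponents {b : ℕ} (e : Fin b → ℕ) (G : ℕ → ℕ)
    (h : ∀ r, r ≤ b → ∀ m, (∀ J : Fin r → Fin b, Function.Injective J → m ≤ ∑ y, e (J y)) ↔
      m ≤ G r) :
    ∃ π : Equiv.Perm (Fin b), ∀ j : Fin b, e (π j) + G (b - 1 - j) = G (b - j) := by
  set σ := Tuple.sort e with hσ
  have hf : Monotone (e ∘ σ) := Tuple.monotone_sort e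
  have key : ∀ r (hr : r ≤ b), ∑ y : Fin r, e (σ (Fin.castLE hr y)) = G r := by
    intro r hr
    apply le_antisymm
    · rw [← h r hr]
      intro J hJ
      have h1 := sum_sorted_le hr (e ∘ σ) hf (fun y => σ.symm (J y))
        (σ.symm.injective.comp hJ)
      simpa using h1
    · exact (h r hr (G r)).2 le_rfl _ (σ.injective.comp (Fin.castLE_injective hr))
  refine ⟨Fin.revPerm.trans σ, fun j => ?_⟩
  have hj := j.2
  obtain ⟨r, hr⟩ : ∃ r, b = j + 1 + r := ⟨b - (j + 1), by omega⟩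
  have h1 := key (b - 1 - j) (by omega)
  have h2 := key (b - 1 - j + 1) (by omega)
  rw [Fin.sum_univ_castSucc] at h2
  have e1 : G (b - j) = G (b - 1 - j + 1) := by
    congr 1
    omega
  have e2 : Fin.castLE (by omega : b - 1 - (j : ℕ) + 1 ≤ b) (Fin.last (b - 1 - (j : ℕ))) =
      Fin.revPerm j := by
    ext
    simp only [Fin.val_castLE, Fin.val_last, Fin.revPerm_apply, Fin.val_rev]
    omega
  rw [e2] at h2
  rw [e1, ← h2, ← h1, add_comm]
  rfl

/-- Exchanging the order of a double product. -/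
def swapEquiv {ι κ : Type*} (X : ι → κ → Type*) [∀ i k, AddCommGroup (X i k)] :
    (∀ i k, X i k) ≃+ (∀ k i, X i k) where
  toFun f := fun k i => f i k
  invFun f := fun i k => f k i
  left_inv _ := rfl
  right_inv _ := rfl
  map_add' _ _ := rfl

theorem zmod_equiv_pi (P : Finset ℕ) (hP : ∀ p ∈ P, p.Prime) (E : ℕ → ℕ) :
    Nonempty (ZMod (∏ p ∈ P, p ^ E p) ≃+ (∀ p : P, ZMod ((p : ℕ) ^ E p))) := by
  have h1 : ∏ p ∈ P, p ^ E p = ∏ p : P, (p : ℕ) ^ E p := (prod_coe_sort P fun p => p ^ E p).symm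
  have hc : Pairwise (Function.onFun Nat.Coprime fun p : P => (p : ℕ) ^ E p) := by
    intro p q hpq
    refine Nat.Coprime.pow _ _ ?_
    rw [Nat.coprime_primes (hP p p.2) (hP q q.2)]
    exact fun h => hpq (Subtype.ext h)
  exact ⟨((ZMod.ringEquivCongr h1).trans (ZMod.prodEquivPi _ hc)).toAddEquiv⟩

theorem pi_zmod_equiv {b : ℕ} (P : Finset ℕ) (hP : ∀ p ∈ P, p.Prime) (a : Fin b → ℕ)
    (ha : ∀ i, a i ≠ 0) (haP : ∀ i p, p.Prime → p ∣ a i → p ∈ P) (D : ℕ → ℕ → ℕ)
    (hπ : ∀ p ∈ P, ∃ π : Equiv.Perm (Fin b), ∀ j : Fin b, (a (π j)).factorization p = D p j) :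
    Nonempty ((∀ i, ZMod (a i)) ≃+ (∀ j : Fin b, ZMod (∏ p ∈ P, p ^ D p j))) := by
  have hfac : ∀ i, a i = ∏ p ∈ P, p ^ (a i).factorization p := by
    intro i
    conv_lhs => rw [← Nat.prod_factorization_pow_eq_self (ha i)]
    rw [Finsupp.prod]
    refine prod_subset (fun p hp => ?_) (fun p hp hp' => ?_)
    · have h1 := Nat.support_factorization (a i) ▸ hp
      exact haP i p (Nat.prime_of_mem_primeFactors h1) (Nat.dvd_of_mem_primeFactors h1)
    · rw [Finsupp.notMem_support_iff] at hp'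
      rw [hp', pow_zero]
  have hA : ∀ i, Nonempty (ZMod (a i) ≃+ (∀ p : P, ZMod ((p : ℕ) ^ (a i).factorization p))) := by
    intro i
    obtain ⟨e⟩ := zmod_equiv_pi P hP (fun p => (a i).factorization p)
    exact ⟨(ZMod.ringEquivCongr (hfac i)).toAddEquiv.trans e⟩
  have hC : ∀ p : P, Nonempty ((∀ i, ZMod ((p : ℕ) ^ (a i).factorization p)) ≃+
      (∀ j : Fin b, ZMod ((p : ℕ) ^ D p j))) := by
    intro p
    obtain ⟨π, hπ'⟩ := hπ p p.2
    have e1 := (LinearEquiv.piCongrLeft ℤ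
      (fun i => ZMod ((p : ℕ) ^ (a i).factorization p)) π).symm.toAddEquiv
    have e2 : (∀ j : Fin b, ZMod ((p : ℕ) ^ (a (π j)).factorization p)) ≃+
        (∀ j : Fin b, ZMod ((p : ℕ) ^ D p j)) :=
      AddEquiv.piCongrRight fun j =>
        (ZMod.ringEquivCongr (by rw [hπ' j])).toAddEquiv
    exact ⟨e1.trans e2⟩
  have hE : ∀ j : Fin b, Nonempty ((∀ p : P, ZMod ((p : ℕ) ^ D p j)) ≃+
      ZMod (∏ p ∈ P, p ^ D p j)) := by
    intro j
    obtain ⟨e⟩ := zmod_equiv_pi P hP (fun p => D p j)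
    exact ⟨e.symm⟩
  exact ⟨(AddEquiv.piCongrRight fun i => (hA i).some).trans
    ((swapEquiv fun (i : Fin b) (p : P) => ZMod ((p : ℕ) ^ (a i).factorization p)).trans
      ((AddEquiv.piCongrRight fun p => (hC p).some).trans
        ((swapEquiv fun (p : P) (j : Fin b) => ZMod ((p : ℕ) ^ D p j)).trans
          (AddEquiv.piCongrRight fun j => (hE j).some))))⟩

end Pool.Agent.H92.Carlitz
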