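import Mathlib

/-! Definitions for the cokernel of the Carlitz matrix. -/

namespace Pool.Agent.H92.Carlitz

open Finset

/-- The Carlitz matrix: entry `(i, j)` is `binom(a + c, a + i - j)`, which is `0` when the lower
index is negative (or larger than `a + c`). -/
def carlitz (a b c : ℕ) : Matrix (Fin b) (Fin b) ℤ :=
  Matrix.of fun i j => if (j : ℕ) ≤ a + i then ((a + c).choose (a + i - j) : ℤ) else 0

/-- The piecewise linear function giving the multiplicities, in terms of the residues of `a, b, c`
modulo `q` (truncated subtraction). -/
def tent (q a b c : ℕ) : ℕ :=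
  min (min (min (a % q) (b % q)) (c % q))
    (min (min (min (q - a % q) (q - b % q)) (q - c % q))
      (min (a % q + b % q + c % q - q) (2 * q - (a % q + b % q + c % q))))

/-- The invariant factors. -/
def invFactor (a b c j : ℕ) : ℕ :=
  ∏ p ∈ (range (a + b + c)).filter Nat.Prime,
    p ^ ((Icc 1 (a + b + c)).filter fun s => j < tent (p ^ s) a b c).card

end Pool.Agent.H92.Carlitz
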