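import Pool.Agent.H92.Carlitz.Greedy

/-! The number of congruent pairs of a set: lower bound, and exact value for optimal sets. -/

namespace Pool.Agent.H92.Carlitz

open Finset

/-- `(n - A) (n - A - 1)`, a nonnegative even integer vanishing iff `n = A` or `n = A + 1`. -/
def phi (A n : ℕ) : ℤ := ((n : ℤ) - A) * ((n : ℤ) - A - 1)

theorem phi_nonneg (A n : ℕ) : 0 ≤ phi A n := by
  unfold phi
  rcases le_or_gt ((n : ℤ) - A) 0 with h | h
  · nlinarith
  · have : 0 ≤ (n : ℤ) - A - 1 := by omega
    positivity

theorem phi_high {A n : ℕ} (h : A + 2 ≤ n) : 2 ≤ phi A n := by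
  unfold phi
  have h1 : (2 : ℤ) ≤ (n : ℤ) - A := by omega
  nlinarith

theorem phi_low {A n : ℕ} (h : n + 1 ≤ A) : 2 ≤ phi A n := by
  unfold phi
  have h1 : (n : ℤ) - A ≤ -1 := by omega
  nlinarith

theorem phi_zero {A n : ℕ} (h : n = A ∨ n = A + 1) : phi A n = 0 := by
  unfold phi
  rcases h with h | h <;> subst h <;> push_cast <;> ring

theorem choose_two_phi (A n : ℕ) : 2 * (n.choose 2 : ℤ) = phi A n + 2 * A * n - A * (A + 1) := by
  have h : 2 * (n.choose 2 : ℤ) = n * (n - 1) := by
    have h1 := Nat.choose_two_right n
    have h2 : n.choose 2 * 2 = n * (n - 1) := by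
      rw [h1]
      exact Nat.div_mul_cancel (Nat.even_mul_pred_self n).two_dvd
    have h3 : ((n.choose 2 * 2 : ℕ) : ℤ) = ((n * (n - 1) : ℕ) : ℤ) := by rw [h2]
    cases n with
    | zero => simp
    | succ n =>
      rw [Nat.add_sub_cancel] at h3
      push_cast at h3 ⊢
      linarith
  rw [h, phi]
  ring

theorem two_pr (q : ℕ) (hq : 0 < q) (A : ℕ) (K : Finset ℕ) :
    2 * (pr q K : ℤ) = ∑ η ∈ range q, phi A (cnt q K η) + 2 * A * K.card - q * (A * (A + 1)) := by
  rw [pr_eq_sum_choose q hq K, ← sum_cnt q hq K]
  push_cast
  rw [mul_sum, sum_congr rfl fun η _ => choose_two_phi A (cnt q K η), sum_sub_distrib,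
    sum_add_distrib, ← mul_sum]
  simp

theorem excess_eq (q : ℕ) (hq : 0 < q) (K : Finset ℕ) :
    2 * (pr q K : ℤ) = 2 * ((∑ i ∈ range K.card, i / q : ℕ) : ℤ) +
      ∑ η ∈ range q, phi (K.card / q) (cnt q K η) := by
  have h1 := two_pr q hq (K.card / q) K
  have h2 := two_pr q hq (K.card / q) (range K.card)
  have h3 : ∑ η ∈ range q, phi (K.card / q) (cnt q (range K.card) η) = 0 := by
    refine sum_eq_zero fun η _ => phi_zero ?_
    rw [cnt_range q hq]
    split_ifs
    · exact Or.inr rfl
    · exact Or.inl rfl
  rw [pr_range q hq, h3, card_range] at h2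
  linarith

/-- Number of classes containing (at least) two more elements of the base set than the minimum. -/
def om (q l f L : ℕ) : ℕ :=
  ((range q).filter fun η => l / q + (L - f) / q + 2 ≤ cnt q (base l f L) η).card

/-- Number of classes containing the minimal number of elements of the base set. -/
def up (q l f L : ℕ) : ℕ :=
  ((range q).filter fun η => cnt q (base l f L) η ≤ l / q + (L - f) / q).card

theorem card_base {l f L : ℕ} (hlf : l ≤ f) : (base l f L).card = l + (L - f) := by
  rw [base, card_union_of_disjoint, card_range, Nat.card_Ico]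
  rw [disjoint_left]
  intro z h1 h2
  rw [mem_range] at h1
  rw [mem_Ico] at h2
  omega

theorem cnt_base_ge (q : ℕ) (hq : 0 < q) {l f L : ℕ} (hlf : l ≤ f) (hfL : f ≤ L) (x : ℕ) :
    l / q + (L - f) / q ≤ cnt q (base l f L) x ∧
      cnt q (base l f L) x ≤ l / q + (L - f) / q + 2 := by
  have hd : Disjoint (range l) (Ico f L) := by
    rw [disjoint_left]
    intro z h1 h2
    rw [mem_range] at h1
    rw [mem_Ico] at h2
    omega
  rw [base, cnt_union q hd, cnt_range q hq]
  have h1 := cnt_Ico q hfL x
  rw [cnt_range q hq, cnt_range q hq] at h1
  have e1 := Nat.div_add_mod f q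
  have e2 := Nat.div_add_mod L q
  have e3 := Nat.div_add_mod (L - f) q
  have m1 := Nat.mod_lt f hq
  have m2 := Nat.mod_lt L hq
  have m3 := Nat.mod_lt (L - f) hq
  have hA : (L - f) / q = L / q - f / q ∧ f % q ≤ L % q ∨
      (L - f) / q + 1 = L / q - f / q ∧ L % q < f % q := by
    have hle : f / q ≤ L / q := Nat.div_le_div_right hfL
    obtain ⟨d, hd⟩ := Nat.exists_eq_add_of_le hle
    rcases le_or_gt (f % q) (L % q) with h | h
    · left
      refine ⟨?_, h⟩
      rw [hd] at e2
      have : L - f = q * d + (L % q - f % q) := by
        rw [mul_add] at e2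
        omega
      rw [this, hd]
      rw [Nat.mul_add_div hq, Nat.div_eq_of_lt (by omega)]
      omega
    · right
      refine ⟨?_, h⟩
      rw [hd] at e2
      rcases d with _ | d
      · exfalso
        rw [add_zero] at e2
        omega
      have : L - f = q * d + (q + L % q - f % q) := by
        rw [mul_add, mul_add] at e2
        omega
      rw [this, hd]
      rw [Nat.mul_add_div hq, Nat.div_eq_of_lt (by omega)]
      omega
  have hle : f / q ≤ L / q := Nat.div_le_div_right hfL
  split_ifs at h1 ⊢ <;> omega

theorem excess_ge (q : ℕ) (hq : 0 < q) {l f L : ℕ} (hlf : l ≤ f) (K : Finset ℕ)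
    (hB : base l f L ⊆ K) :
    ∑ i ∈ range K.card, i / q + min (om q l f L) (up q l f L - (K.card - (l + (L - f)))) ≤
      pr q K := by
  have hE := excess_eq q hq K
  have hcard := card_le_card hB
  rw [card_base hlf] at hcard
  set m := l / q + (L - f) / q with hm
  have key : 2 * ((min (om q l f L) (up q l f L - (K.card - (l + (L - f)))) : ℕ) : ℤ) ≤
      ∑ η ∈ range q, phi (K.card / q) (cnt q K η) := by
    rcases le_or_gt (K.card / q) m with hA | hA
    · have h1 : 2 * (om q l f L : ℤ) ≤ ∑ η ∈ range q, phi (K.card / q) (cnt q K η) := by
        unfold om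
        rw [card_filter]
        push_cast
        rw [mul_sum]
        refine sum_le_sum fun η _ => ?_
        split_ifs with h
        · have := cnt_mono q hB η
          rw [mul_one]
          exact phi_high (by omega)
        · rw [mul_zero]
          exact phi_nonneg _ _
      have : (min (om q l f L) (up q l f L - (K.card - (l + (L - f)))) : ℕ) ≤ om q l f L :=
        min_le_left _ _
      omega
    · have h1 : 2 * ((((range q).filter fun η => cnt q K η ≤ m).card : ℕ) : ℤ) ≤
          ∑ η ∈ range q, phi (K.card / q) (cnt q K η) := by
        rw [card_filter]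
        push_cast
        rw [mul_sum]
        refine sum_le_sum fun η _ => ?_
        split_ifs with h
        · rw [mul_one]
          exact phi_low (by omega)
        · rw [mul_zero]
          exact phi_nonneg _ _
      have h2 : up q l f L + (l + (L - f)) ≤
          ((range q).filter fun η => cnt q K η ≤ m).card + K.card := by
        unfold up
        rw [← sum_cnt q hq K, ← card_base (L := L) hlf, ← sum_cnt q hq (base l f L),
          card_filter, card_filter, ← sum_add_distrib, ← sum_add_distrib]
        refine sum_le_sum fun η _ => ?_
        have := cnt_mono q hB η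
        split_ifs <;> omega
      have : (min (om q l f L) (up q l f L - (K.card - (l + (L - f)))) : ℕ) ≤
        up q l f L - (K.card - (l + (L - f))) := min_le_right _ _
      omega
  omega

theorem excess_opt (q : ℕ) (hq : 0 < q) {l f L : ℕ} (hlf : l ≤ f) (hfL : f ≤ L) (K : Finset ℕ)
    (hB : base l f L ⊆ K) (hK : K ⊆ range L) (hopt : Opt q l f L K) :
    pr q K ≤ ∑ i ∈ range K.card, i / q +
      min (om q l f L) (up q l f L - (K.card - (l + (L - f)))) := by
  have hE := excess_eq q hq K
  have hcard := card_le_card hB
  rw [card_base hlf] at hcard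
  set m := l / q + (L - f) / q with hm
  -- balanced counts give zero excess
  have hbal : ∀ M, (∀ η ∈ range q, cnt q K η = M ∨ cnt q K η = M + 1) →
      ∑ η ∈ range q, phi (K.card / q) (cnt q K η) = 0 := by
    intro M hM
    by_cases hall : ∀ η ∈ range q, cnt q K η = M + 1
    · have h1 : K.card = q * (M + 1) := by
        rw [← sum_cnt q hq K, sum_congr rfl hall]
        simp
      have h2 : K.card / q = M + 1 := by rw [h1, Nat.mul_div_cancel_left _ hq]
      refine sum_eq_zero fun η hη => phi_zero (Or.inl ?_)
      rw [h2, hall η hη]
    · push Not at hall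
      obtain ⟨η0, hη0, hne⟩ := hall
      have h1 : K.card < q * (M + 1) := by
        rw [← sum_cnt q hq K]
        calc ∑ η ∈ range q, cnt q K η < ∑ η ∈ range q, (M + 1) := by
              refine sum_lt_sum (fun η hη => ?_) ⟨η0, hη0, ?_⟩
              · have := hM η hη
                omega
              · have := hM η0 hη0
                omega
          _ = q * (M + 1) := by simp
      have h2 : q * M ≤ K.card := by
        rw [← sum_cnt q hq K]
        calc q * M = ∑ η ∈ range q, M := by simp
          _ ≤ ∑ η ∈ range q, cnt q K η := by
              refine sum_le_sum (fun η hη => ?_)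
              have := hM η hη
              omega
      have h3 : K.card / q = M := by
        rw [mul_comm] at h1 h2
        exact Nat.div_eq_of_lt_le h2 h1
      refine sum_eq_zero fun η hη => phi_zero ?_
      rw [h3]
      exact hM η hη
  by_cases hfull : range L ⊆ K
  · have hKL : K = range L := Subset.antisymm hK hfull
    have := hbal (L / q) (fun η _ => by
      rw [hKL, cnt_range q hq]
      split_ifs
      · exact Or.inr rfl
      · exact Or.inl rfl)
    omega
  -- minimal unused element
  obtain ⟨y, hyU, hymin⟩ := exists_min_image (range L \ K) (cnt q K)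
    (by rwa [sdiff_nonempty])
  rw [mem_sdiff, mem_range] at hyU
  obtain ⟨hyL, hyK⟩ := hyU
  have hbase := cnt_base_ge q hq hlf hfL
  have hlow : ∀ η, cnt q K y ≤ cnt q K η := by
    intro η
    by_cases h : ∃ w, w < L ∧ w ∉ K ∧ w % q = η % q
    · obtain ⟨w, hw1, hw2, hw3⟩ := h
      rw [← cnt_congr q K hw3]
      exact hymin w (by rw [mem_sdiff, mem_range]; exact ⟨hw1, hw2⟩)
    · push Not at h
      have h1 : cnt q K η = cnt q (range L) η := by
        unfold cnt
        congr 1
        ext w
        simp only [mem_filter, mem_range]
        constructor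
        · rintro ⟨h1, h2⟩
          exact ⟨mem_range.1 (hK h1), h2⟩
        · rintro ⟨h1, h2⟩
          refine ⟨?_, h2⟩
          by_contra h3
          exact h w h1 h3 h2
      have h2 : cnt q K y + 1 ≤ cnt q (range L) y := by
        rw [← cnt_insert_of_eq q K y y hyK rfl]
        refine cnt_mono q ?_ y
        intro w hw
        rcases mem_insert.1 hw with h | h
        · rw [h]
          exact mem_range.2 hyL
        · exact hK h
      rw [h1]
      rw [cnt_range q hq] at h2 ⊢
      split_ifs at h2 ⊢ <;> omega
  -- classes met by added elements
  have hhit : ∀ η, cnt q K η ≤ cnt q K y + 1 ∨ cnt q K η = cnt q (base l f L) η := by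
    intro η
    by_cases h : ∃ x ∈ K, l ≤ x ∧ x < f ∧ x % q = η % q
    · obtain ⟨x, hxK, hx1, hx2, hx3⟩ := h
      left
      rw [← cnt_congr q K hx3]
      exact hopt x hxK hx1 hx2 y hyL hyK
    · push Not at h
      right
      unfold cnt
      congr 1
      ext w
      simp only [mem_filter]
      constructor
      · rintro ⟨h1, h2⟩
        refine ⟨?_, h2⟩
        have h3 := mem_range.1 (hK h1)
        rw [base, mem_union, mem_range, mem_Ico]
        by_contra h4
        exact h w h1 (by omega) (by omega) h2
      · rintro ⟨h1, h2⟩
        exact ⟨hB h1, h2⟩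
  by_cases hB2 : ∀ η ∈ range q, cnt q K η ≤ cnt q K y + 1
  · have := hbal (cnt q K y) (fun η hη => by
      have h1 := hB2 η hη
      have h2 := hlow η
      omega)
    omega
  · push Not at hB2
    obtain ⟨η0, hη0, hη0'⟩ := hB2
    have hmy : cnt q K y = m := by
      have h1 := hhit η0
      have h2 := (hbase η0).2
      have h3 := (hbase y).1
      have h4 := cnt_mono q hB y
      omega
    -- description of the counts
    have hdesc : ∀ η, cnt q K η = cnt q (base l f L) η ∨
        (cnt q (base l f L) η = m ∧ cnt q K η = m + 1) := by
      intro η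
      have h1 := hhit η
      have h2 := hbase η
      have h3 := cnt_mono q hB η
      omega
    have hω : ((range q).filter fun η => m + 2 ≤ cnt q K η).card = om q l f L := by
      unfold om
      congr 1
      refine filter_congr fun η _ => ?_
      have h1 := hdesc η
      omega
    have hυ : ((range q).filter fun η => cnt q K η ≤ m).card + K.card =
        up q l f L + (l + (L - f)) := by
      unfold up
      rw [← sum_cnt q hq K, ← card_base (L := L) hlf, ← sum_cnt q hq (base l f L),
        card_filter, card_filter, ← sum_add_distrib, ← sum_add_distrib]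
      refine sum_congr rfl fun η _ => ?_
      have h1 := hdesc η
      split_ifs <;> omega
    have hN : K.card + ((range q).filter fun η => cnt q K η ≤ m).card =
        q * (m + 1) + ((range q).filter fun η => m + 2 ≤ cnt q K η).card := by
      have : q * (m + 1) = ∑ η ∈ range q, (m + 1) := by simp
      rw [← sum_cnt q hq K, card_filter, card_filter, this, ← sum_add_distrib,
        ← sum_add_distrib]
      refine sum_congr rfl fun η _ => ?_
      have h1 := hdesc η
      have h2 := hbase η
      split_ifs <;> omega
    have hypos : 0 < ((range q).filter fun η => cnt q K η ≤ m).card := by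
      rw [card_pos]
      refine ⟨y % q, ?_⟩
      rw [mem_filter, mem_range]
      refine ⟨Nat.mod_lt _ hq, ?_⟩
      rw [cnt_congr q K (by simp : (y % q) % q = y % q), hmy]
    have hωq : ((range q).filter fun η => m + 2 ≤ cnt q K η).card ≤ q := by
      simpa using card_filter_le (range q) fun η => m + 2 ≤ cnt q K η
    have hυq : ((range q).filter fun η => cnt q K η ≤ m).card ≤ q := by
      simpa using card_filter_le (range q) fun η => cnt q K η ≤ m
    rcases le_or_gt ((range q).filter fun η => cnt q K η ≤ m).card
      ((range q).filter fun η => m + 2 ≤ cnt q K η).card with hc | hc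
    · have hA : K.card / q = m + 1 := by
        refine Nat.div_eq_of_lt_le ?_ ?_
        · rw [mul_comm]
          omega
        · rw [add_mul (m + 1) 1 q, mul_comm (m + 1) q]
          omega
      have hsum : ∑ η ∈ range q, phi (K.card / q) (cnt q K η) =
          2 * ((((range q).filter fun η => cnt q K η ≤ m).card : ℕ) : ℤ) := by
        rw [hA, card_filter]
        push_cast
        rw [mul_sum]
        refine sum_congr rfl fun η _ => ?_
        have h1 := hdesc η
        have h2 := hbase η
        split_ifs with h
        · have : cnt q K η = m := by omega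
          rw [this]
          unfold phi
          push_cast
          ring
        · rw [phi_zero (by omega)]
          simp
      omega
    · have hA : K.card / q = m := by
        have : q * (m + 1) = q * m + q := by ring
        refine Nat.div_eq_of_lt_le ?_ ?_
        · rw [mul_comm]
          omega
        · rw [mul_comm]
          omega
      have hsum : ∑ η ∈ range q, phi (K.card / q) (cnt q K η) =
          2 * ((((range q).filter fun η => m + 2 ≤ cnt q K η).card : ℕ) : ℤ) := by
        rw [hA, card_filter]
        push_cast
        rw [mul_sum]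
        refine sum_congr rfl fun η _ => ?_
        have h1 := hdesc η
        have h2 := hbase η
        split_ifs with h
        · have : cnt q K η = m + 2 := by omega
          rw [this]
          unfold phi
          push_cast
          ring
        · rw [phi_zero (by omega)]
          simp
      omega

end Pool.Agent.H92.Carlitz
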