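import Pool.Agent.H92.Carlitz.Gcd
import Pool.Agent.H92.Carlitz.Coker

/-! The cokernel of the Carlitz matrix. -/

namespace Pool.Agent.H92.Carlitz

open Finset Module

theorem carlitz_eq (a b c : ℕ) (i j : Fin b) :
    carlitz a b c i j = hsym a b c ((b - 1 - i) + j) := by
  have hi := i.2
  unfold carlitz hsym
  rw [Matrix.of_apply]
  by_cases h1 : (j : ℕ) ≤ a + i
  · rw [if_pos h1]
    by_cases h2 : (i : ℕ) ≤ c + j
    · rw [if_pos (by omega)]
      congr 1
      refine Nat.choose_symm_of_eq_add ?_
      omega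
    · rw [if_neg (by omega), Nat.choose_eq_zero_of_lt (by omega)]
      rfl
  · rw [if_neg h1]
    rw [if_pos (by omega), Nat.choose_eq_zero_of_lt (by omega)]
    rfl

theorem carlitz_minors {a b c r : ℕ} (d : ℤ) :
    (∀ R J : Fin r → Fin b, d ∣ (Matrix.of fun x y => carlitz a b c (R x) (J y)).det) ↔
      HMin (hsym a b c) (Ideal.span {d}) r b b := by
  constructor
  · intro H R J hR hJ
    rw [Ideal.mem_span_singleton]
    have h1 := H (fun x => ⟨b - 1 - R x, by have := hR x; omega⟩) (fun y => ⟨J y, hJ y⟩)
    have e : (Matrix.of fun x y => carlitz a b c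
        ((fun x => (⟨b - 1 - R x, by have := hR x; omega⟩ : Fin b)) x)
        ((fun y => (⟨J y, hJ y⟩ : Fin b)) y)) =
        Matrix.of fun x y => hsym a b c (R x + J y) := by
      ext x y
      rw [Matrix.of_apply, Matrix.of_apply, carlitz_eq]
      congr 2
      have := hR x
      simp only
      omega
    rw [e] at h1
    exact h1
  · intro H R J
    have h1 := H (fun x => b - 1 - R x) (fun y => J y) (fun x => by have := (R x).2; omega)
      (fun y => (J y).2)
    rw [Ideal.mem_span_singleton] at h1
    have e : (Matrix.of fun x y => carlitz a b c (R x) (J y)) =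
        Matrix.of fun x y => hsym a b c ((b - 1 - R x) + J y) := by
      ext x y
      rw [Matrix.of_apply, Matrix.of_apply, carlitz_eq]
    rw [e]
    exact h1

/-- The exponent of `p` in the gcd of the `r`-minors. -/
def gexp (p a b c r : ℕ) : ℕ := ∑ s ∈ Ico 1 (a + b + c + 1), (tent (p ^ s) a b c - (b - r))

theorem carlitz_dvd_iff {p : ℕ} (hp : p.Prime) (a b c r m : ℕ) (hr : r ≤ b) :
    (∀ R J : Fin r → Fin b, ((p ^ m : ℕ) : ℤ) ∣
      (Matrix.of fun x y => carlitz a b c (R x) (J y)).det) ↔ m ≤ gexp p a b c r := by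
  rw [carlitz_minors, hmin_iff hp a b c r m hr]
  rfl

theorem carlitz_det_ne_zero (a b c : ℕ) : (carlitz a b c).det ≠ 0 := by
  intro h0
  have h1 := (carlitz_dvd_iff Nat.prime_two a b c b (gexp 2 a b c b + 1) le_rfl).not.2 (by omega)
  push Not at h1
  obtain ⟨R, J, hRJ⟩ := h1
  apply hRJ
  by_cases hR : Function.Injective R
  swap
  · simp only [Function.Injective] at hR
    push Not at hR
    obtain ⟨x, x', hxx, hne⟩ := hR
    rw [Matrix.det_zero_of_row_eq hne (by ext y; simp [hxx])]
    exact dvd_zero _
  by_cases hJ : Function.Injective J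
  swap
  · simp only [Function.Injective] at hJ
    push Not at hJ
    obtain ⟨x, x', hxx, hne⟩ := hJ
    rw [Matrix.det_zero_of_column_eq hne (fun y => by simp [hxx])]
    exact dvd_zero _
  set σ : Equiv.Perm (Fin b) := Equiv.ofBijective R (Finite.injective_iff_bijective.1 hR)
  set τ : Equiv.Perm (Fin b) := Equiv.ofBijective J (Finite.injective_iff_bijective.1 hJ)
  have e1 : (Matrix.of fun x y => carlitz a b c (R x) (J y)).det.natAbs =
      (carlitz a b c).det.natAbs := by
    have s1 := natAbs_det_perm_rows σ (fun x y => carlitz a b c x (J y))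
    have s2 := natAbs_det_perm_cols τ (fun x y => carlitz a b c x y)
    exact s1.trans s2
  rw [h0, Int.natAbs_zero, Int.natAbs_eq_zero] at e1
  rw [e1]
  exact dvd_zero _

theorem carlitz_finrank (a b c : ℕ) :
    Module.finrank ℤ (LinearMap.range (carlitz a b c).mulVecLin) =
      Module.finrank ℤ (Fin b → ℤ) := by
  refine LinearMap.finrank_range_of_inj ?_
  rw [injective_iff_map_eq_zero]
  intro v hv
  exact Matrix.eq_zero_of_mulVec_eq_zero (carlitz_det_ne_zero a b c) hv

theorem tent_eq_zero {q a b c : ℕ} (h : a + b + c ≤ q) : tent q a b c = 0 := by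
  have h1 : tent q a b c ≤ a % q + b % q + c % q - q :=
    (min_le_right _ _).trans ((min_le_right _ _).trans (min_le_left _ _))
  have h2 := Nat.mod_le a q
  have h3 := Nat.mod_le b q
  have h4 := Nat.mod_le c q
  omega

theorem gexp_diff (p a b c j : ℕ) (hj : j < b) :
    gexp p a b c (b - 1 - j) + ((Icc 1 (a + b + c)).filter fun s => j < tent (p ^ s) a b c).card =
      gexp p a b c (b - j) := by
  unfold gexp
  have e1 : Icc 1 (a + b + c) = Ico 1 (a + b + c + 1) := by
    ext x
    simp only [mem_Icc, mem_Ico]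
    omega
  rw [e1, card_filter, ← sum_add_distrib]
  refine sum_congr rfl fun s _ => ?_
  split_ifs <;> omega

theorem main (a b c : ℕ) :
    Nonempty (((Fin b → ℤ) ⧸ LinearMap.range (carlitz a b c).mulVecLin) ≃+
      (∀ j : Fin b, ZMod (invFactor a b c j))) := by
  set h := carlitz_finrank a b c with hh
  set co := Submodule.smithNormalFormCoeffs (Pi.basisFun ℤ (Fin b)) h with hco
  have hne : ∀ i, co i ≠ 0 := fun i => Submodule.smithNormalFormCoeffs_ne_zero _ h i
  have e1 := Submodule.quotientEquivPiZMod (LinearMap.range (carlitz a b c).mulVecLin)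
    (Pi.basisFun ℤ (Fin b)) h
  have hperm : ∀ p : ℕ, p.Prime → ∃ π : Equiv.Perm (Fin b), ∀ j : Fin b,
      (co (π j)).natAbs.factorization p =
        ((Icc 1 (a + b + c)).filter fun s => (j : ℕ) < tent (p ^ s) a b c).card := by
    intro p hp
    obtain ⟨π, hπ⟩ := sorted_exponents (fun i => (co i).natAbs.factorization p)
      (gexp p a b c) (fun r hr m => by
        rw [← carlitz_dvd_iff hp a b c r m hr, minors_iff (carlitz a b c) h r]
        refine forall_congr' fun J => forall_congr' fun _ => ?_
        rw [Int.natCast_dvd]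
        have e2 : (∏ y, co (J y)).natAbs = ∏ y, (co (J y)).natAbs :=
          map_prod Int.natAbsHom (fun y => co (J y)) univ
        rw [← hco, e2, hp.pow_dvd_iff_le_factorization
          (prod_ne_zero_iff.2 fun y _ => Int.natAbs_ne_zero.2 (hne _)),
          Nat.factorization_prod (fun y _ => Int.natAbs_ne_zero.2 (hne _)),
          Finsupp.finsetSum_apply])
    refine ⟨π, fun j => ?_⟩
    have h1 := hπ j
    have h2 := gexp_diff p a b c j j.2
    omega
  obtain ⟨e3⟩ := pi_zmod_equiv ((range (a + b + c)).filter Nat.Prime)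
    (fun p hp => (mem_filter.1 hp).2) (fun i => (co i).natAbs)
    (fun i => Int.natAbs_ne_zero.2 (hne i))
    (fun i p hp hdvd => by
      rw [mem_filter, mem_range]
      refine ⟨?_, hp⟩
      by_contra hlt
      push Not at hlt
      obtain ⟨π, hπ⟩ := hperm p hp
      have h1 := hπ (π.symm i)
      rw [Equiv.apply_symm_apply] at h1
      have h2 : ((Icc 1 (a + b + c)).filter fun s =>
          ((π.symm i : Fin b) : ℕ) < tent (p ^ s) a b c) = ∅ := by
        refine filter_eq_empty_iff.2 fun s hs => ?_
        rw [mem_Icc] at hs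
        have h3 : p ≤ p ^ s := Nat.le_self_pow (by omega) p
        rw [tent_eq_zero (hlt.trans h3)]
        omega
      rw [h2, card_empty] at h1
      have h4 := (hp.dvd_iff_one_le_factorization (Int.natAbs_ne_zero.2 (hne i))).1 hdvd
      omega)
    (fun p j => ((Icc 1 (a + b + c)).filter fun s => j < tent (p ^ s) a b c).card)
    (fun p hp => hperm p (mem_filter.1 hp).2)
  exact ⟨e1.trans e3⟩

theorem invFactor_pos (a b c j : ℕ) : 0 < invFactor a b c j :=
  prod_pos fun _ hp => pow_pos (mem_filter.1 hp).2.pos _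

theorem invFactor_dvd (a b c j : ℕ) : invFactor a b c (j + 1) ∣ invFactor a b c j := by
  refine prod_dvd_prod_of_dvd _ _ fun p _ => pow_dvd_pow p (card_le_card ?_)
  intro s hs
  rw [mem_filter] at hs ⊢
  exact ⟨hs.1, by omega⟩

end Pool.Agent.H92.Carlitz
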