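import Pool.Agent.H92.Carlitz.Defs
import Pool.Agent.H92.Carlitz.Excess

/-! The explicit piecewise linear formula. -/

namespace Pool.Agent.H92.Carlitz

open Finset

theorem add_mod_cases (q : ℕ) (hq : 0 < q) (u v : ℕ) :
    (u % q + v % q < q ∧ (u + v) % q = u % q + v % q) ∨
      (q ≤ u % q + v % q ∧ (u + v) % q + q = u % q + v % q) := by
  rcases lt_or_ge (u % q + v % q) q with h | h
  · left
    refine ⟨h, ?_⟩
    rw [Nat.add_mod, Nat.mod_eq_of_lt h]
  · right
    refine ⟨h, ?_⟩
    have h1 := Nat.mod_lt u hq
    have h2 := Nat.mod_lt v hq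
    rw [Nat.add_mod, Nat.mod_eq_sub_mod h, Nat.mod_eq_of_lt (by omega)]
    omega

theorem sub_mod_cases (q : ℕ) (u k : ℕ) (hk : k ≤ u) (hkq : k < q) :
    (k ≤ u % q ∧ (u - k) % q + k = u % q) ∨
      (u % q < k ∧ (u - k) % q + k = u % q + q) := by
  have hq : 0 < q := by omega
  have h := add_mod_cases q hq (u - k) k
  rw [Nat.sub_add_cancel hk, Nat.mod_eq_of_lt hkq] at h
  have h1 := Nat.mod_lt (u - k) hq
  omega

theorem sub_div_cases (q : ℕ) (hq : 0 < q) (f L : ℕ) (hfL : f ≤ L) :
    (f % q ≤ L % q ∧ (L - f) / q + f / q = L / q) ∨
      (L % q < f % q ∧ (L - f) / q + f / q + 1 = L / q) := by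
  have e1 := Nat.div_add_mod f q
  have e2 := Nat.div_add_mod L q
  have m1 := Nat.mod_lt f hq
  have m2 := Nat.mod_lt L hq
  have hle : f / q ≤ L / q := Nat.div_le_div_right hfL
  obtain ⟨d, hd⟩ := Nat.exists_eq_add_of_le hle
  rcases le_or_gt (f % q) (L % q) with h | h
  · left
    refine ⟨h, ?_⟩
    rw [hd] at e2
    have : L - f = q * d + (L % q - f % q) := by
      rw [mul_add] at e2
      omega
    rw [this, hd]
    rw [Nat.mul_add_div hq, Nat.div_eq_of_lt (by omega)]
    omega
  · right
    refine ⟨h, ?_⟩
    rw [hd] at e2
    rcases d with _ | d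
    · exfalso
      rw [add_zero] at e2
      omega
    have : L - f = q * d + (q + L % q - f % q) := by
      rw [mul_add, mul_add] at e2
      omega
    rw [this, hd]
    rw [Nat.mul_add_div hq, Nat.div_eq_of_lt (by omega)]
    omega

theorem om_up_eq (q : ℕ) (hq : 0 < q) {l f L : ℕ} (hlf : l ≤ f) (hfL : f ≤ L) :
    (f % q ≤ L % q ∧ om q l f L = min (l % q) (L % q) - f % q ∧
      up q l f L + l % q + L % q = q + f % q + om q l f L) ∨
    (L % q < f % q ∧ om q l f L = min (l % q) (L % q) + (l % q - f % q) ∧
      up q l f L = f % q - max (L % q) (l % q)) := by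
  have hb := cnt_base q hq hlf hfL
  have ml := Nat.mod_lt l hq
  have mf := Nat.mod_lt f hq
  have mL := Nat.mod_lt L hq
  rcases sub_div_cases q hq f L hfL with ⟨h1, h2⟩ | ⟨h1, h2⟩
  · left
    have ho : ((range q).filter fun η => l / q + (L - f) / q + 2 ≤ cnt q (base l f L) η) =
        Ico (f % q) (min (l % q) (L % q)) := by
      ext η
      rw [mem_filter, mem_range, mem_Ico]
      constructor
      · rintro ⟨hη, h⟩
        have h3 := hb η
        rw [Nat.mod_eq_of_lt hη] at h3
        split_ifs at h3 <;> omega
      · rintro ⟨h4, h5⟩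
        have hη : η < q := by omega
        refine ⟨hη, ?_⟩
        have h3 := hb η
        rw [Nat.mod_eq_of_lt hη] at h3
        split_ifs at h3 <;> omega
    have hu : ((range q).filter fun η => cnt q (base l f L) η ≤ l / q + (L - f) / q) ∪
        (range (l % q) ∪ Ico (f % q) (L % q)) = range q := by
      ext η
      simp only [mem_union, mem_filter, mem_range, mem_Ico]
      constructor
      · omega
      · intro hη
        have h3 := hb η
        rw [Nat.mod_eq_of_lt hη] at h3
        split_ifs at h3 <;> omega
    have hd : Disjoint ((range q).filter fun η => cnt q (base l f L) η ≤ l / q + (L - f) / q)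
        (range (l % q) ∪ Ico (f % q) (L % q)) := by
      rw [disjoint_left]
      intro η h3 h4
      simp only [mem_union, mem_filter, mem_range, mem_Ico] at h3 h4
      have h5 := hb η
      rw [Nat.mod_eq_of_lt h3.1] at h5
      split_ifs at h5 <;> omega
    have hc : (range (l % q) ∪ Ico (f % q) (L % q)).card +
        (min (l % q) (L % q) - f % q) = l % q + (L % q - f % q) := by
      have h6 := card_union_add_card_inter (range (l % q)) (Ico (f % q) (L % q))
      have h7 : range (l % q) ∩ Ico (f % q) (L % q) = Ico (f % q) (min (l % q) (L % q)) := by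
        ext η
        simp only [mem_inter, mem_range, mem_Ico]
        omega
      rw [h7, Nat.card_Ico, Nat.card_Ico, card_range] at h6
      exact h6
    have hu2 := congrArg card hu
    rw [card_union_of_disjoint hd, card_range] at hu2
    have ho2 := congrArg card ho
    rw [Nat.card_Ico] at ho2
    change om q l f L = _ at ho2
    change up q l f L + _ = _ at hu2
    refine ⟨h1, ho2, ?_⟩
    rw [ho2]
    omega
  · right
    have ho : ((range q).filter fun η => l / q + (L - f) / q + 2 ≤ cnt q (base l f L) η) =
        range (min (l % q) (L % q)) ∪ Ico (f % q) (l % q) := by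
      ext η
      rw [mem_filter, mem_union, mem_range, mem_range, mem_Ico]
      constructor
      · rintro ⟨hη, h⟩
        have h3 := hb η
        rw [Nat.mod_eq_of_lt hη] at h3
        split_ifs at h3 <;> omega
      · intro h4
        have hη : η < q := by omega
        refine ⟨hη, ?_⟩
        have h3 := hb η
        rw [Nat.mod_eq_of_lt hη] at h3
        split_ifs at h3 <;> omega
    have hu : ((range q).filter fun η => cnt q (base l f L) η ≤ l / q + (L - f) / q) =
        Ico (max (L % q) (l % q)) (f % q) := by
      ext η
      rw [mem_filter, mem_range, mem_Ico]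
      constructor
      · rintro ⟨hη, h⟩
        have h3 := hb η
        rw [Nat.mod_eq_of_lt hη] at h3
        split_ifs at h3 <;> omega
      · intro h4
        have hη : η < q := by omega
        refine ⟨hη, ?_⟩
        have h3 := hb η
        rw [Nat.mod_eq_of_lt hη] at h3
        split_ifs at h3 <;> omega
    have hd : Disjoint (range (min (l % q) (L % q))) (Ico (f % q) (l % q)) := by
      rw [disjoint_left]
      intro η h3 h4
      rw [mem_range] at h3
      rw [mem_Ico] at h4
      omega
    have ho2 := congrArg card ho
    rw [card_union_of_disjoint hd, card_range, Nat.card_Ico] at ho2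
    have hu2 := congrArg card hu
    rw [Nat.card_Ico] at hu2
    exact ⟨h1, ho2, hu2⟩

/-- The value of the minimal excess. -/
theorem min_om_up (q : ℕ) (hq : 0 < q) (a b c k : ℕ) (hk : k ≤ b) :
    min (om q (c - k) (a + b + c - k - (a - k)) (a + b + c - k))
      (up q (c - k) (a + b + c - k - (a - k)) (a + b + c - k) -
        (a + c - ((c - k) + (a + b + c - k - (a + b + c - k - (a - k)))))) =
      tent q a b c - k := by
  have hlf : c - k ≤ a + b + c - k - (a - k) := by omega
  have hfL : a + b + c - k - (a - k) ≤ a + b + c - k := by omega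
  have hou := om_up_eq q hq hlf hfL
  have mx := Nat.mod_lt a hq
  have my := Nat.mod_lt b hq
  have mz := Nat.mod_lt c hq
  by_cases hkc : c < k
  · have h0 : om q (c - k) (a + b + c - k - (a - k)) (a + b + c - k) = 0 := by
      have : (c - k) % q = 0 := by
        rw [Nat.sub_eq_zero_of_le hkc.le, Nat.zero_mod]
      omega
    rw [h0]
    have h1 : tent q a b c ≤ c % q := (min_le_left _ _).trans (min_le_right _ _)
    have h2 : c % q ≤ c := Nat.mod_le _ _
    omega
  by_cases hka : a < k
  · have h0 : om q (c - k) (a + b + c - k - (a - k)) (a + b + c - k) = 0 := by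
      have : a + b + c - k - (a - k) = a + b + c - k := by omega
      rw [this] at hou ⊢
      omega
    rw [h0]
    have h1 : tent q a b c ≤ a % q :=
      (min_le_left _ _).trans ((min_le_left _ _).trans (min_le_left _ _))
    have h2 : a % q ≤ a := Nat.mod_le _ _
    omega
  have ht : a + c - ((c - k) + (a + b + c - k - (a + b + c - k - (a - k)))) = 2 * k := by omega
  rw [ht]
  have hf : a + b + c - k - (a - k) = b + c := by omega
  rw [hf] at hou ⊢
  set T := tent q a b c with hT
  have t1 : T ≤ a % q := (min_le_left _ _).trans ((min_le_left _ _).trans (min_le_left _ _))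
  have t2 : T ≤ b % q := (min_le_left _ _).trans ((min_le_left _ _).trans (min_le_right _ _))
  have t3 : T ≤ c % q := (min_le_left _ _).trans (min_le_right _ _)
  have t4 : T ≤ q - a % q :=
    (min_le_right _ _).trans ((min_le_left _ _).trans ((min_le_left _ _).trans (min_le_left _ _)))
  have t5 : T ≤ q - b % q :=
    (min_le_right _ _).trans ((min_le_left _ _).trans ((min_le_left _ _).trans (min_le_right _ _)))
  have t6 : T ≤ q - c % q :=
    (min_le_right _ _).trans ((min_le_left _ _).trans (min_le_right _ _))
  have t7 : T ≤ a % q + b % q + c % q - q :=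
    (min_le_right _ _).trans ((min_le_right _ _).trans (min_le_left _ _))
  have t8 : T ≤ 2 * q - (a % q + b % q + c % q) :=
    (min_le_right _ _).trans ((min_le_right _ _).trans (min_le_right _ _))
  by_cases hkq : q ≤ k
  · have h1 : up q (c - k) (b + c) (a + b + c - k) ≤ q := by
      unfold up
      simpa using card_filter_le (range q) _
    omega
  push Not at hkq
  have c1 := add_mod_cases q hq b c
  have c2 := add_mod_cases q hq a (b + c)
  rw [← add_assoc] at c2
  have c3 := sub_mod_cases q (a + b + c) k (by omega) hkq
  have c4 := sub_mod_cases q c k (by omega) hkq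
  set O := om q (c - k) (b + c) (a + b + c - k) with hO
  set U := up q (c - k) (b + c) (a + b + c - k) with hU
  apply le_antisymm
  · -- upper bound
    have hTle : min O (U - 2 * k) = 0 ∨ min O (U - 2 * k) + k ≤ T := by
      by_cases h0 : min O (U - 2 * k) = 0
      · exact Or.inl h0
      right
      have hO1 : min O (U - 2 * k) ≤ O := min_le_left _ _
      have hU1 : min O (U - 2 * k) ≤ U - 2 * k := min_le_right _ _
      set M := min O (U - 2 * k) with hM
      clear_value M O U
      have hM1 : 1 ≤ M := by omega
      have g1 : M + k ≤ a % q := by omega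
      have g2 : M + k ≤ b % q := by omega
      have g3 : M + k ≤ c % q := by omega
      have g4 : M + k ≤ q - a % q := by omega
      have g5 : M + k ≤ q - b % q := by omega
      have g6 : M + k ≤ q - c % q := by omega
      have g7 : M + k ≤ a % q + b % q + c % q - q := by omega
      have g8 : M + k ≤ 2 * q - (a % q + b % q + c % q) := by omega
      rw [hT]
      exact le_min (le_min (le_min g1 g2) g3) (le_min (le_min (le_min g4 g5) g6) (le_min g7 g8))
    omega
  · clear_value T O U
    refine le_min ?_ ?_
    · omega
    · omega

end Pool.Agent.H92.Carlitz
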