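import Pool.Agent.H92.Carlitz.Pairs

/-! The `p`-adic valuation of the minors. -/

namespace Pool.Agent.H92.Carlitz

open Finset

theorem pr_image {r : ℕ} (q : ℕ) (y : Fin r → ℕ) (hy : StrictMono y) :
    pr q (univ.image y) = ∑ i : Fin r, ((Ioi i).filter fun j => q ∣ y j - y i).card := by
  unfold pr
  rw [sum_image (fun a _ b _ h => hy.injective h)]
  refine sum_congr rfl fun i _ => ?_
  rw [filter_image, card_image_of_injective _ hy.injective]
  congr 1
  ext j
  simp only [mem_filter, mem_univ, true_and, mem_Ioi, hy.lt_iff_lt]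
  refine and_congr_right fun hij => ?_
  have h1 : y i ≤ y j := (hy hij).le
  constructor
  · intro h
    exact (Nat.modEq_iff_dvd' h1).1 h.symm
  · intro h
    exact ((Nat.modEq_iff_dvd' h1).2 h).symm

theorem vandermonde_factorization {p r B : ℕ} (hp : p.Prime) (y : Fin r → ℕ) (hy : StrictMono y)
    (hB : ∀ j, y j < p ^ B) :
    (Matrix.vandermonde fun j => (y j : ℤ)).det.natAbs.factorization p =
      ∑ s ∈ Ico 1 B, pr (p ^ s) (univ.image y) := by
  have h1 : (Matrix.vandermonde fun j => (y j : ℤ)).det.natAbs =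
      ∏ i : Fin r, ∏ j ∈ Ioi i, (y j - y i) := by
    have h0 : (Matrix.vandermonde fun j => (y j : ℤ)).det =
        ((∏ i : Fin r, ∏ j ∈ Ioi i, (y j - y i) : ℕ) : ℤ) := by
      rw [Matrix.det_vandermonde, Nat.cast_prod]
      refine prod_congr rfl fun i _ => ?_
      rw [Nat.cast_prod]
      refine prod_congr rfl fun j hj => ?_
      rw [mem_Ioi] at hj
      have := hy hj
      omega
    rw [h0, Int.natAbs_natCast]
  have hpos : ∀ i : Fin r, ∀ j ∈ Ioi i, 0 < y j - y i := by
    intro i j hj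
    rw [mem_Ioi] at hj
    have := hy hj
    omega
  rw [h1, Nat.factorization_prod (fun i _ => (prod_pos (hpos i)).ne')]
  rw [Finsupp.finsetSum_apply]
  have h2 : ∀ i : Fin r, (∏ j ∈ Ioi i, (y j - y i)).factorization p =
      ∑ s ∈ Ico 1 B, ((Ioi i).filter fun j => p ^ s ∣ y j - y i).card := by
    intro i
    rw [Nat.factorization_prod (fun j hj => (hpos i j hj).ne'), Finsupp.finsetSum_apply]
    have h3 : ∀ j ∈ Ioi i, (y j - y i).factorization p =
        ∑ s ∈ Ico 1 B, if p ^ s ∣ y j - y i then 1 else 0 := by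
      intro j hj
      rw [Nat.factorization_eq_card_pow_dvd_of_lt hp (hpos i j hj)
        (lt_of_le_of_lt (Nat.sub_le _ _) (hB j)), card_filter]
    rw [sum_congr rfl h3, sum_comm]
    refine sum_congr rfl fun s _ => ?_
    rw [card_filter]
  rw [sum_congr rfl fun i _ => h2 i, sum_comm]
  refine sum_congr rfl fun s _ => ?_
  rw [pr_image _ y hy]

theorem factorial_factorization {p B n L : ℕ} (hp : p.Prime) (hB0 : B ≠ 0) (hB : L < p ^ B)
    (hn : n ≤ L) : n.factorial.factorization p = ∑ s ∈ Ico 1 B, n / p ^ s := by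
  refine Nat.factorization_factorial hp ?_
  exact Nat.log_lt_of_lt_pow' hB0 (lt_of_le_of_lt hn hB)

/-- Valuation of the minors (ordered columns). -/
theorem bmat_factorization {p B N r : ℕ} (hp : p.Prime) (hB0 : B ≠ 0) (hB : N + r < p ^ B)
    (y : Fin r → ℕ) (hy : StrictMono y) (hyL : ∀ j, y j < N + r) :
    (bmat N r y).det ≠ 0 ∧
    (bmat N r y).det.natAbs.factorization p + ∑ s ∈ Ico 1 B, ∑ i ∈ range N, i / p ^ s =
      ∑ s ∈ Ico 1 B, pr (p ^ s) (range (N + r) \ univ.image y) := by
  have hf := minor_formula N r y hyL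
  have hf2 := congrArg Int.natAbs hf
  rw [Int.natAbs_mul, Int.natAbs_mul, Int.natAbs_natCast, Int.natAbs_natCast] at hf2
  have hV := vandermonde_factorization hp y hy (fun j => (hyL j).trans hB)
  have hVne : (Matrix.vandermonde fun j => (y j : ℤ)).det ≠ 0 := by
    rw [Matrix.det_vandermonde_ne_zero_iff]
    intro i j hij
    simp only [Nat.cast_inj] at hij
    exact hy.injective hij
  have hF1 : (∏ j, ((y j).factorial * (N + r - 1 - y j).factorial)) ≠ 0 :=
    (prod_pos fun j _ => Nat.mul_pos (Nat.factorial_pos _) (Nat.factorial_pos _)).ne'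
  have hF2 : (∏ j ∈ range r, (N + j).factorial) ≠ 0 :=
    (prod_pos fun j _ => Nat.factorial_pos _).ne'
  have hdet : (bmat N r y).det ≠ 0 := by
    intro h0
    rw [h0, Int.natAbs_zero, mul_zero] at hf2
    have := Nat.mul_ne_zero hF2 (Int.natAbs_ne_zero.2 hVne)
    exact this hf2.symm
  refine ⟨hdet, ?_⟩
  have h1 := congrArg (fun n => n.factorization p) hf2
  rw [Nat.factorization_mul hF1 (Int.natAbs_ne_zero.2 hdet),
    Nat.factorization_mul hF2 (Int.natAbs_ne_zero.2 hVne)] at h1
  simp only [Finsupp.coe_add, Pi.add_apply] at h1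
  rw [hV] at h1
  have h2 : (∏ j, ((y j).factorial * (N + r - 1 - y j).factorial)).factorization p =
      ∑ s ∈ Ico 1 B, ∑ x ∈ univ.image y, (x / p ^ s + (N + r - 1 - x) / p ^ s) := by
    rw [Nat.factorization_prod (fun j _ => (Nat.mul_pos (Nat.factorial_pos _)
      (Nat.factorial_pos _)).ne'), Finsupp.finsetSum_apply, sum_comm,
      sum_image (fun a _ b _ h => hy.injective h)]
    refine sum_congr rfl fun j _ => ?_
    rw [Nat.factorization_mul (Nat.factorial_pos _).ne' (Nat.factorial_pos _).ne']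
    simp only [Finsupp.coe_add, Pi.add_apply]
    have := hyL j
    rw [factorial_factorization hp hB0 hB (by omega : y j ≤ N + r),
      factorial_factorization hp hB0 hB (by omega : N + r - 1 - y j ≤ N + r), sum_add_distrib]
  have h3 : (∏ j ∈ range r, (N + j).factorial).factorization p =
      ∑ s ∈ Ico 1 B, ∑ j ∈ range r, (N + j) / p ^ s := by
    rw [Nat.factorization_prod (fun j _ => (Nat.factorial_pos _).ne'), Finsupp.finsetSum_apply,
      sum_comm]
    refine sum_congr rfl fun j hj => ?_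
    rw [mem_range] at hj
    rw [factorial_factorization hp hB0 hB (by omega : N + j ≤ N + r)]
  rw [h2, h3] at h1
  have h4 : ∑ s ∈ Ico 1 B, pr (p ^ s) (univ.image y) +
      ∑ s ∈ Ico 1 B, ∑ i ∈ range (N + r), i / p ^ s =
      ∑ s ∈ Ico 1 B, pr (p ^ s) (range (N + r) \ univ.image y) +
      ∑ s ∈ Ico 1 B, ∑ x ∈ univ.image y, (x / p ^ s + (N + r - 1 - x) / p ^ s) := by
    rw [← sum_add_distrib, ← sum_add_distrib]
    refine sum_congr rfl fun s _ => ?_
    refine pr_compl (p ^ s) (pow_pos hp.pos s) (N + r) (univ.image y) ?_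
    intro z hz
    obtain ⟨j, _, rfl⟩ := mem_image.1 hz
    exact mem_range.2 (hyL j)
  have h5 : ∑ s ∈ Ico 1 B, ∑ i ∈ range (N + r), i / p ^ s =
      ∑ s ∈ Ico 1 B, ∑ i ∈ range N, i / p ^ s + ∑ s ∈ Ico 1 B, ∑ j ∈ range r, (N + j) / p ^ s := by
    rw [← sum_add_distrib]
    refine sum_congr rfl fun s _ => ?_
    rw [sum_range_add]
  omega

end Pool.Agent.H92.Carlitz
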