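import Pool.Agent.H92.Carlitz.Hankel
import Pool.Agent.H92.Carlitz.Val
import Pool.Agent.H92.Carlitz.Tent

/-! The `p`-part of the gcd of the `r`-minors of the Carlitz matrix. -/

namespace Pool.Agent.H92.Carlitz

open Finset

/-- The symbol of the Hankel form of the Carlitz matrix. -/
def hsym (a b c x : ℕ) : ℤ := if b - 1 ≤ c + x then ((a + c).choose (c + x - (b - 1)) : ℤ) else 0

theorem natAbs_det_perm_rows {r : ℕ} (σ : Equiv.Perm (Fin r)) (M : Fin r → Fin r → ℤ) :
    (Matrix.of fun x y => M (σ x) y).det.natAbs = (Matrix.of M).det.natAbs := by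
  have h := congrArg Int.natAbs (Matrix.det_permute σ (Matrix.of M))
  rw [Int.natAbs_mul] at h
  have h2 : (((Equiv.Perm.sign σ : ℤˣ) : ℤ)).natAbs = 1 := Int.units_natAbs _
  rw [← one_mul (Matrix.of M).det.natAbs, ← h2]
  exact h

theorem natAbs_det_perm_cols {r : ℕ} (σ : Equiv.Perm (Fin r)) (M : Fin r → Fin r → ℤ) :
    (Matrix.of fun x y => M x (σ y)).det.natAbs = (Matrix.of M).det.natAbs := by
  have h := congrArg Int.natAbs (Matrix.det_permute' σ (Matrix.of M))
  rw [Int.natAbs_mul] at h
  have h2 : (((Equiv.Perm.sign σ : ℤˣ) : ℤ)).natAbs = 1 := Int.units_natAbs _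
  rw [← one_mul (Matrix.of M).det.natAbs, ← h2]
  exact h

theorem hsym_eq_bz (a b c k r i j : ℕ) (hb : b = k + r) (hi : i < r) (hj : k ≤ c + j) :
    hsym a b c ((r - 1 - i) + j) = bz (a + c) (c + j - k) i := by
  unfold hsym bz
  by_cases h : i ≤ c + j - k
  · rw [if_pos h, if_pos (by omega)]
    congr 2
    omega
  · rw [if_neg h, if_neg (by omega)]

theorem natAbs_det_hsym (a b c k r : ℕ) (hb : b = k + r) (J : Fin r → ℕ)
    (hJ : ∀ y, k ≤ c + J y) :
    (Matrix.of fun x y : Fin r => hsym a b c ((x : ℕ) + J y)).det.natAbs =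
      (bmat (a + c) r fun y => c + J y - k).det.natAbs := by
  rw [← natAbs_det_perm_rows Fin.revPerm (fun x y : Fin r => hsym a b c ((x : ℕ) + J y))]
  congr 2
  ext x y
  simp only [Matrix.of_apply, Fin.revPerm_apply, bmat]
  rw [← hsym_eq_bz a b c k r x (J y) hb x.2 (hJ y)]
  congr 1
  rw [Fin.val_rev]
  have := x.2
  omega

/-- Lower bound for the valuations, ordered columns. -/
theorem bmat_dvd {p : ℕ} (hp : p.Prime) (a b c k r : ℕ) (hb : b = k + r) (J : Fin r → ℕ)
    (hJ : StrictMono J) (hJk : ∀ y, k ≤ c + J y) (hJb : ∀ y, J y < b + k) :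
    p ^ (∑ s ∈ Ico 1 (a + b + c + 1), (tent (p ^ s) a b c - k)) ∣
      (bmat (a + c) r fun y => c + J y - k).det.natAbs := by
  by_cases hlt : ∀ y, c + J y - k < a + c + r
  swap
  · push Not at hlt
    obtain ⟨y, hy⟩ := hlt
    have h0 : (bmat (a + c) r fun y => c + J y - k).det = 0 := by
      refine Matrix.det_eq_zero_of_column_eq_zero y fun x => ?_
      simp only [bmat, Matrix.of_apply, bz]
      rw [if_pos (by omega), Nat.choose_eq_zero_of_lt (by omega)]
      simp
    rw [h0]
    simp
  have hmono : StrictMono fun y => c + J y - k := by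
    intro x y hxy
    have h1 := hJ hxy
    have h2 := hJk x
    simp only
    omega
  have hB : a + c + r < p ^ (a + b + c + 1) :=
    lt_of_lt_of_le (by omega) (Nat.lt_pow_self hp.one_lt).le
  obtain ⟨hne, hval⟩ := bmat_factorization hp (by omega : a + b + c + 1 ≠ 0) hB
    (fun y => c + J y - k) hmono hlt
  rw [hp.pow_dvd_iff_le_factorization (Int.natAbs_ne_zero.2 hne)]
  set K := range (a + c + r) \ univ.image (fun y => c + J y - k) with hK
  have hcard : K.card = a + c := by
    rw [hK, card_sdiff_of_subset, card_range, card_image_of_injective _ hmono.injective]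
    · simp
    · intro z hz
      obtain ⟨j, _, rfl⟩ := mem_image.1 hz
      exact mem_range.2 (hlt j)
  have hL : a + b + c - k = a + c + r := by omega
  have hbase : base (c - k) (a + b + c - k - (a - k)) (a + b + c - k) ⊆ K := by
    intro z hz
    rw [base, mem_union, mem_range, mem_Ico] at hz
    rw [hK, mem_sdiff, mem_range]
    refine ⟨by omega, ?_⟩
    rw [mem_image]
    rintro ⟨y, _, hy⟩
    have h1 := hJk y
    have h2 := hJb y
    have h3 := hlt y
    omega
  have key : ∑ s ∈ Ico 1 (a + b + c + 1), ∑ i ∈ range (a + c), i / p ^ s +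
      ∑ s ∈ Ico 1 (a + b + c + 1), (tent (p ^ s) a b c - k) ≤
      ∑ s ∈ Ico 1 (a + b + c + 1), pr (p ^ s) K := by
    rw [← sum_add_distrib]
    refine sum_le_sum fun s _ => ?_
    have hq : 0 < p ^ s := pow_pos hp.pos s
    have h1 := excess_ge (p ^ s) hq (L := a + b + c - k)
      (by omega : c - k ≤ a + b + c - k - (a - k)) K hbase
    rw [hcard] at h1
    rw [min_om_up (p ^ s) hq a b c k (by omega)] at h1
    exact h1
  omega

/-- Lower bound for the valuations, arbitrary columns. -/
theorem hsym_dvd {p : ℕ} (hp : p.Prime) (a b c k r : ℕ) (hb : b = k + r) (R J : Fin r → ℕ)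
    (hR : ∀ x, R x < r) (hJb : ∀ y, J y < b + k) :
    p ^ (∑ s ∈ Ico 1 (a + b + c + 1), (tent (p ^ s) a b c - k)) ∣
      (Matrix.of fun x y => hsym a b c (R x + J y)).det.natAbs := by
  by_cases hRi : Function.Injective R
  swap
  · have h0 : (Matrix.of fun x y => hsym a b c (R x + J y)).det = 0 := by
      simp only [Function.Injective] at hRi
      push Not at hRi
      obtain ⟨x, x', hxx, hne⟩ := hRi
      refine Matrix.det_zero_of_row_eq hne ?_
      ext y
      simp [hxx]
    rw [h0]
    simp
  by_cases hJi : Function.Injective J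
  swap
  · have h0 : (Matrix.of fun x y => hsym a b c (R x + J y)).det = 0 := by
      simp only [Function.Injective] at hJi
      push Not at hJi
      obtain ⟨x, x', hxx, hne⟩ := hJi
      refine Matrix.det_zero_of_column_eq hne fun y => ?_
      simp [hxx]
    rw [h0]
    simp
  by_cases hJk : ∀ y, k ≤ c + J y
  swap
  · push Not at hJk
    obtain ⟨y, hy⟩ := hJk
    have h0 : (Matrix.of fun x y => hsym a b c (R x + J y)).det = 0 := by
      refine Matrix.det_eq_zero_of_column_eq_zero y fun x => ?_
      simp only [Matrix.of_apply, hsym]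
      have := hR x
      rw [if_neg (by omega)]
    rw [h0]
    simp
  -- rows form a permutation
  have hσ : Function.Bijective (fun x : Fin r => (⟨R x, hR x⟩ : Fin r)) := by
    rw [← Finite.injective_iff_bijective]
    intro x x' hxx
    exact hRi (by simpa using hxx)
  set σ : Equiv.Perm (Fin r) := Equiv.ofBijective _ hσ with hσd
  have h1 : (Matrix.of fun x y => hsym a b c (R x + J y)).det.natAbs =
      (Matrix.of fun x y : Fin r => hsym a b c ((x : ℕ) + J y)).det.natAbs := by
    rw [← natAbs_det_perm_rows σ (fun x y : Fin r => hsym a b c ((x : ℕ) + J y))]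
    rfl
  -- sort the columns
  have h2 : (Matrix.of fun x y : Fin r => hsym a b c ((x : ℕ) + J y)).det.natAbs =
      (Matrix.of fun x y : Fin r => hsym a b c ((x : ℕ) + (J ∘ Tuple.sort J) y)).det.natAbs := by
    rw [← natAbs_det_perm_cols (Tuple.sort J) (fun x y : Fin r => hsym a b c ((x : ℕ) + J y))]
    rfl
  have hmono : StrictMono (J ∘ Tuple.sort J) :=
    (Tuple.monotone_sort J).strictMono_of_injective (hJi.comp (Tuple.sort J).injective)
  rw [h1, h2, natAbs_det_hsym a b c k r hb (J ∘ Tuple.sort J) (fun y => hJk _)]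
  exact bmat_dvd hp a b c k r hb (J ∘ Tuple.sort J) hmono (fun y => hJk _) (fun y => hJb _)

/-- Existence of a minor with the minimal valuation. -/
theorem exists_hsym {p : ℕ} (hp : p.Prime) (a b c k r : ℕ) (hb : b = k + r) :
    ∃ J : Fin r → ℕ, (∀ y, J y < b + k) ∧
      ¬ p ^ (∑ s ∈ Ico 1 (a + b + c + 1), (tent (p ^ s) a b c - k) + 1) ∣
        (Matrix.of fun x y : Fin r => hsym a b c ((x : ℕ) + J y)).det.natAbs := by
  obtain ⟨K, hbase, hKL, hcard, hopt⟩ := exists_opt hp.pos
    (by omega : c - k ≤ a + b + c - k - (a - k))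
    (by omega : a + b + c - k - (a - k) ≤ a + b + c - k) (Ico 1 (a + b + c + 1))
    (a + c - (c - k) - (a - k)) (by omega)
  have hcardK : K.card = a + c := by omega
  have hL : a + b + c - k = a + c + r := by omega
  have hJcard : (range (a + b + c - k) \ K).card = r := by
    rw [card_sdiff_of_subset hKL, card_range]
    omega
  set y := (range (a + b + c - k) \ K).orderEmbOfFin hJcard with hy
  have hymem : ∀ i, y i ∈ range (a + b + c - k) \ K := fun i =>
    orderEmbOfFin_mem _ hJcard i
  have hyr : ∀ i, c - k ≤ y i ∧ y i < a + b + c - k - (a - k) := by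
    intro i
    have h1 := hymem i
    rw [mem_sdiff, mem_range] at h1
    have h2 : y i ∉ base (c - k) (a + b + c - k - (a - k)) (a + b + c - k) :=
      fun h => h1.2 (hbase h)
    rw [base, mem_union, mem_range, mem_Ico] at h2
    omega
  have hyimg : univ.image (fun i => y i) = range (a + b + c - k) \ K := by
    refine eq_of_subset_of_card_le ?_ ?_
    · intro z hz
      obtain ⟨j, _, rfl⟩ := mem_image.1 hz
      exact hymem j
    · rw [card_image_of_injective _ y.injective, hJcard]
      simp
  refine ⟨fun i => y i + k - c, fun i => ?_, ?_⟩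
  · have := hyr i
    change y i + k - c < b + k
    omega
  · rw [natAbs_det_hsym a b c k r hb (fun i => y i + k - c) (fun i => by
      have := hyr i
      change k ≤ c + (y i + k - c)
      omega)]
    have e1 : (fun i : Fin r => c + (y i + k - c) - k) = fun i => y i := by
      funext i
      have := hyr i
      omega
    rw [e1]
    have hB : a + c + r < p ^ (a + b + c + 1) :=
      lt_of_lt_of_le (by omega) (Nat.lt_pow_self hp.one_lt).le
    obtain ⟨hne, hval⟩ := bmat_factorization hp (by omega : a + b + c + 1 ≠ 0) hB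
      (fun i => y i) y.strictMono (fun i => by
        have := hymem i
        rw [mem_sdiff, mem_range] at this
        omega)
    rw [hp.pow_dvd_iff_le_factorization (Int.natAbs_ne_zero.2 hne)]
    have hcompl : range (a + c + r) \ univ.image (fun i => y i) = K := by
      rw [hyimg, ← hL, sdiff_sdiff_right_self]
      exact inter_eq_right.2 hKL
    rw [hcompl] at hval
    have key : ∑ s ∈ Ico 1 (a + b + c + 1), pr (p ^ s) K ≤
        ∑ s ∈ Ico 1 (a + b + c + 1), ∑ i ∈ range (a + c), i / p ^ s +
        ∑ s ∈ Ico 1 (a + b + c + 1), (tent (p ^ s) a b c - k) := by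
      rw [← sum_add_distrib]
      refine sum_le_sum fun s hs => ?_
      have hq : 0 < p ^ s := pow_pos hp.pos s
      have h1 := excess_opt (p ^ s) hq (L := a + b + c - k)
        (by omega : c - k ≤ a + b + c - k - (a - k)) (by omega) K hbase hKL (hopt s hs)
      rw [hcardK] at h1
      rw [min_om_up (p ^ s) hq a b c k (by omega)] at h1
      exact h1
    omega

/-- The exponent of `p` in the gcd of the `r`-minors. -/
theorem hmin_iff {p : ℕ} (hp : p.Prime) (a b c r m : ℕ) (hr : r ≤ b) :
    HMin (hsym a b c) (Ideal.span {((p ^ m : ℕ) : ℤ)}) r b b ↔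
      m ≤ ∑ s ∈ Ico 1 (a + b + c + 1), (tent (p ^ s) a b c - (b - r)) := by
  rw [HMin.iff hr]
  have e : 2 * b - r = b + (b - r) := by omega
  constructor
  · intro H
    obtain ⟨J, hJ1, hJ2⟩ := exists_hsym hp a b c (b - r) r (by omega)
    have h1 := H (fun x => x) J (fun x => x.2) (fun y => by rw [e]; exact hJ1 y)
    rw [Ideal.mem_span_singleton, Int.natCast_dvd] at h1
    by_contra hcon
    push Not at hcon
    exact hJ2 ((pow_dvd_pow p hcon).trans h1)
  · intro hm R J hR hJ
    rw [Ideal.mem_span_singleton, Int.natCast_dvd]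
    exact (pow_dvd_pow p hm).trans
      (hsym_dvd hp a b c (b - r) r (by omega) R J hR (fun y => by rw [← e]; exact hJ y))

end Pool.Agent.H92.Carlitz
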