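import Pool.Agent.H92.Carlitz.Pairs

/-! Simultaneous optimisation of the numbers of congruent pairs for all powers of `p`. -/

namespace Pool.Agent.H92.Carlitz

open Finset

theorem cnt_range (q : ℕ) (hq : 0 < q) (n x : ℕ) :
    cnt q (range n) x = n / q + if x % q < n % q then 1 else 0 := by
  rw [← Nat.count_modEq_card n hq x, Nat.count_eq_card_filter_range]
  rfl

theorem cnt_mono (q : ℕ) {K K' : Finset ℕ} (h : K ⊆ K') (x : ℕ) : cnt q K x ≤ cnt q K' x :=
  card_le_card (filter_subset_filter _ h)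

theorem cnt_union (q : ℕ) {K K' : Finset ℕ} (h : Disjoint K K') (x : ℕ) :
    cnt q (K ∪ K') x = cnt q K x + cnt q K' x := by
  unfold cnt
  rw [filter_union, card_union_of_disjoint]
  exact disjoint_filter_filter h

theorem cnt_Ico (q : ℕ) {u v : ℕ} (huv : u ≤ v) (x : ℕ) :
    cnt q (range u) x + cnt q (Ico u v) x = cnt q (range v) x := by
  rw [← cnt_union]
  · congr 1
    ext z
    simp only [mem_union, mem_range, mem_Ico]
    omega
  · rw [disjoint_left]
    intro z h1 h2
    rw [mem_range] at h1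
    rw [mem_Ico] at h2
    omega

theorem cnt_Ico_le (q : ℕ) (hq : 0 < q) (u v x y : ℕ) :
    cnt q (Ico u v) x ≤ cnt q (Ico u v) y + 1 := by
  rcases le_or_gt v u with h | h
  · rw [Ico_eq_empty_of_le h]
    simp [cnt]
  have e1 := cnt_Ico q h.le x
  have e2 := cnt_Ico q h.le y
  rw [cnt_range q hq, cnt_range q hq] at e1 e2
  have hm1 := Nat.mod_lt u hq
  have hm2 := Nat.mod_lt v hq
  have hdiv : u % q ≤ v % q ∨ u / q + 1 ≤ v / q := by
    by_contra hcon
    push Not at hcon
    have h1 := Nat.div_add_mod u q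
    have h2 := Nat.div_add_mod v q
    have h3 : v / q ≤ u / q := by omega
    have h4 := Nat.mul_le_mul_left q h3
    omega
  have hle : u / q ≤ v / q := Nat.div_le_div_right h.le
  split_ifs at e1 e2 <;> omega

/-- `K` is optimal at `q`: every element of `K` in `[l, f)` is in a class with at most one more
element of `K` than the class of any unused element. -/
def Opt (q l f L : ℕ) (K : Finset ℕ) : Prop :=
  ∀ x ∈ K, l ≤ x → x < f → ∀ y, y < L → y ∉ K → cnt q K x ≤ cnt q K y + 1

/-- The base set. -/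
def base (l f L : ℕ) : Finset ℕ := range l ∪ Ico f L

theorem cnt_base (q : ℕ) (hq : 0 < q) {l f L : ℕ} (hlf : l ≤ f) (hfL : f ≤ L) (x : ℕ) :
    cnt q (base l f L) x + (f / q + if x % q < f % q then 1 else 0) =
      (l / q + if x % q < l % q then 1 else 0) + (L / q + if x % q < L % q then 1 else 0) := by
  have hd : Disjoint (range l) (Ico f L) := by
    rw [disjoint_left]
    intro z h1 h2
    rw [mem_range] at h1
    rw [mem_Ico] at h2
    omega
  have h1 := cnt_Ico q hfL x
  rw [base, cnt_union q hd, cnt_range q hq]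
  rw [cnt_range q hq, cnt_range q hq] at h1
  omega

/-- The overfull classes form an interval. -/
theorem overfull_interval (q : ℕ) (hq : 0 < q) {l f L : ℕ} (hlf : l ≤ f) (hfL : f ≤ L) (z m : ℕ)
    (hz : cnt q (base l f L) z ≤ m) :
    ∃ s t, t ≤ q ∧ (∀ x, (s ≤ x % q ∧ x % q < t) → m + 2 ≤ cnt q (base l f L) x) ∧
      ∀ x, cnt q (base l f L) x ≤ m + 1 + if s ≤ x % q ∧ x % q < t then 1 else 0 := by
  have hbase := cnt_base q hq hlf hfL
  have hm1 := Nat.mod_lt l hq
  have hm2 := Nat.mod_lt f hq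
  have hm3 := Nat.mod_lt L hq
  have hu := hbase z
  by_cases hcase : f % q ≤ L % q
  · by_cases hm : m + f / q = l / q + L / q
    · refine ⟨f % q, min (L % q) (l % q), by omega, ?_, ?_⟩
      · intro x hx
        have hx' := hbase x
        rw [if_neg (by omega), if_pos (by omega), if_pos (by omega)] at hx'
        omega
      · intro x
        have hx' := hbase x
        split_ifs at hx' ⊢ <;> omega
    · refine ⟨0, 0, by omega, ?_, ?_⟩
      · intro x hx
        omega
      · intro x
        have hx' := hbase x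
        rw [if_neg (by omega)]
        split_ifs at hx' hu <;> omega
  · by_cases hm : m + 1 + f / q = l / q + L / q
    · refine ⟨0, min (L % q) (l % q), by omega, ?_, ?_⟩
      · intro x hx
        have hx' := hbase x
        rw [if_pos (by omega), if_pos (by omega), if_pos (by omega)] at hx'
        omega
      · intro x
        have hx' := hbase x
        split_ifs at hx' hu ⊢ <;> omega
    · refine ⟨0, 0, by omega, ?_, ?_⟩
      · intro x hx
        omega
      · intro x
        have hx' := hbase x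
        rw [if_neg (by omega)]
        split_ifs at hx' hu <;> omega

/-- Refinement of residue classes. -/
theorem cnt_eq_sum (q q' : ℕ) (hqq : q ∣ q') (hq' : 0 < q') (K : Finset ℕ) (x : ℕ) :
    cnt q K x = ∑ θ ∈ (range q').filter (fun θ => θ % q = x % q), cnt q' K θ := by
  unfold cnt
  rw [card_eq_sum_card_fiberwise (f := fun z => z % q')
    (t := (range q').filter (fun θ => θ % q = x % q))]
  · refine sum_congr rfl fun θ hθ => ?_
    rw [mem_filter, mem_range] at hθ
    congr 1
    ext z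
    simp only [mem_filter]
    rw [Nat.mod_eq_of_lt hθ.1]
    constructor
    · rintro ⟨⟨h1, _⟩, h3⟩
      exact ⟨h1, h3⟩
    · rintro ⟨h1, h3⟩
      refine ⟨⟨h1, ?_⟩, h3⟩
      rw [← hθ.2, ← h3, Nat.mod_mod_of_dvd _ hqq]
  · intro z hz
    simp only [coe_filter, Set.mem_ofPred_eq, mem_range] at hz ⊢
    refine ⟨Nat.mod_lt _ hq', ?_⟩
    rw [Nat.mod_mod_of_dvd _ hqq]
    exact hz.2

/-- The key dichotomy: for `q ∣ q'`, if some unused element `z` is in a fuller class
modulo `q` than the unused element `y`, then the class of `y` modulo `q` contains an unused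
element `w` whose class modulo `q'` is at most as full as that of `z`. -/
theorem dichotomy (q q' : ℕ) (hqq : q ∣ q') (hq' : 0 < q') {l f L : ℕ} (hlf : l ≤ f) (hfL : f ≤ L)
    (K : Finset ℕ) (hB : base l f L ⊆ K) (hK : K ⊆ range L) (hopt : Opt q' l f L K) (y z : ℕ)
    (hy : y < L) (hyK : y ∉ K) (hz : z < L) (hzK : z ∉ K)
    (hlt : cnt q K y < cnt q K z) :
    ∃ w, w < L ∧ w ∉ K ∧ w % q = y % q ∧ cnt q' K w ≤ cnt q' K z := by
  by_contra hcon
  push Not at hcon
  have hq : 0 < q := Nat.pos_of_dvd_of_pos hqq hq'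
  set m := cnt q' K z with hm
  have s1 : m + 2 ≤ cnt q' (range L) y := by
    have h1 := hcon y hy hyK rfl
    have h2 : cnt q' K y + 1 ≤ cnt q' (range L) y := by
      rw [← cnt_insert_of_eq q' K y y hyK rfl]
      refine cnt_mono q' ?_ y
      intro w hw
      rcases mem_insert.1 hw with h | h
      · rw [h]
        exact mem_range.2 hy
      · exact hK h
    omega
  have s2 : ∀ θ, m + 1 ≤ cnt q' (range L) θ := by
    intro θ
    rw [cnt_range q' hq'] at s1 ⊢
    split_ifs at s1 ⊢ <;> omega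
  have s3 : ∀ θ, θ % q = y % q → m + 1 ≤ cnt q' K θ := by
    intro θ hθ
    by_cases h : ∃ w, w < L ∧ w ∉ K ∧ w % q' = θ % q'
    · obtain ⟨w, hw1, hw2, hw3⟩ := h
      have h1 : w % q = y % q := by
        rw [← hθ, ← Nat.mod_mod_of_dvd w hqq, hw3, Nat.mod_mod_of_dvd _ hqq]
      have h2 := hcon w hw1 hw2 h1
      rw [cnt_congr q' K hw3] at h2
      omega
    · push Not at h
      have h1 : cnt q' K θ = cnt q' (range L) θ := by
        unfold cnt
        congr 1
        ext w
        simp only [mem_filter, mem_range]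
        constructor
        · rintro ⟨h1, h2⟩
          exact ⟨mem_range.1 (hK h1), h2⟩
        · rintro ⟨h1, h2⟩
          refine ⟨?_, h2⟩
          by_contra h3
          exact h w h1 h3 h2
      rw [h1]
      exact s2 θ
  have hz0 : cnt q' (base l f L) z ≤ m := cnt_mono q' hB z
  obtain ⟨s, t, htq, hst1, hst2⟩ := overfull_interval q' hq' hlf hfL z m hz0
  have s4 : ∀ θ, cnt q' K θ ≤ m + 1 + if s ≤ θ % q' ∧ θ % q' < t then 1 else 0 := by
    intro θ
    by_cases h : ∃ x ∈ K, l ≤ x ∧ x < f ∧ x % q' = θ % q'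
    · obtain ⟨x, hxK, hx1, hx2, hx3⟩ := h
      have h1 := hopt x hxK hx1 hx2 z hz hzK
      rw [cnt_congr q' K hx3] at h1
      omega
    · push Not at h
      have h1 : cnt q' K θ = cnt q' (base l f L) θ := by
        unfold cnt
        congr 1
        ext w
        simp only [mem_filter]
        constructor
        · rintro ⟨h1, h2⟩
          refine ⟨?_, h2⟩
          have h3 := mem_range.1 (hK h1)
          rw [base, mem_union, mem_range, mem_Ico]
          by_contra h4
          exact h w h1 (by omega) (by omega) h2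
        · rintro ⟨h1, h2⟩
          exact ⟨hB h1, h2⟩
      rw [h1]
      exact hst2 θ
  have s5 : ∀ θ, θ % q = y % q →
      m + 1 + (if s ≤ θ % q' ∧ θ % q' < t then 1 else 0) ≤ cnt q' K θ := by
    intro θ hθ
    split_ifs with h
    · exact (hst1 θ h).trans (cnt_mono q' hB θ)
    · exact s3 θ hθ
  -- summation
  have hcard : ∀ x, ((range q').filter (fun θ => θ % q = x % q)).card = q' / q := by
    intro x
    have := cnt_range q hq q' x
    rw [Nat.mod_eq_zero_of_dvd hqq, if_neg (by omega), add_zero] at this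
    exact this
  have hind : ∀ x, ∑ θ ∈ (range q').filter (fun θ => θ % q = x % q),
      (if s ≤ θ % q' ∧ θ % q' < t then 1 else 0) = cnt q (Ico s t) x := by
    intro x
    rw [← card_filter]
    unfold cnt
    congr 1
    ext θ
    simp only [mem_filter, mem_range, mem_Ico]
    constructor
    · rintro ⟨⟨h1, h2⟩, h3, h4⟩
      rw [Nat.mod_eq_of_lt h1] at h3 h4
      exact ⟨⟨h3, h4⟩, h2⟩
    · rintro ⟨⟨h1, h2⟩, h3⟩
      have h4 : θ < q' := by omega
      rw [Nat.mod_eq_of_lt h4]
      exact ⟨⟨h4, h3⟩, h1, h2⟩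
  have t1 : (q' / q) * (m + 1) + cnt q (Ico s t) y ≤ cnt q K y := by
    rw [cnt_eq_sum q q' hqq hq' K y, ← hind y, ← hcard y, ← smul_eq_mul, ← sum_const,
      ← sum_add_distrib]
    refine sum_le_sum fun θ hθ => ?_
    rw [mem_filter] at hθ
    exact s5 θ hθ.2
  have t2 : cnt q K z + 1 ≤ (q' / q) * (m + 1) + cnt q (Ico s t) z := by
    rw [cnt_eq_sum q q' hqq hq' K z, ← hind z, ← hcard z, ← smul_eq_mul, ← sum_const,
      ← sum_add_distrib]
    refine Nat.succ_le_of_lt (sum_lt_sum (fun θ _ => s4 θ) ⟨z % q', ?_, ?_⟩)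
    · rw [mem_filter, mem_range]
      exact ⟨Nat.mod_lt _ hq', Nat.mod_mod_of_dvd _ hqq⟩
    · have : cnt q' K (z % q') = m := cnt_congr q' K (by simp)
      rw [this]
      omega
  have t3 := cnt_Ico_le q hq s t z y
  omega

/-- `w` minimises the number of congruent elements of `K` modulo `q` among unused elements. -/
def Good (L : ℕ) (K : Finset ℕ) (q w : ℕ) : Prop :=
  ∀ y, y < L → y ∉ K → cnt q K w ≤ cnt q K y

theorem common_good_aux {p : ℕ} (hp : 0 < p) {l f L : ℕ} (hlf : l ≤ f) (hfL : f ≤ L)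
    (K : Finset ℕ) (hB : base l f L ⊆ K) (hK : K ⊆ range L) (T : Finset ℕ)
    (hopt : ∀ t ∈ T, Opt (p ^ t) l f L K) :
    ∀ s y0, (∀ t ∈ T, s ≤ t) → y0 < L → y0 ∉ K →
      (∀ t ∈ T, ∃ w, w < L ∧ w ∉ K ∧ w % p ^ s = y0 % p ^ s ∧ Good L K (p ^ t) w) →
      ∃ w, w < L ∧ w ∉ K ∧ w % p ^ s = y0 % p ^ s ∧ ∀ t ∈ T, Good L K (p ^ t) w := by
  induction T using Finset.induction_on_min with
  | empty => exact fun s y0 _ h1 h2 _ => ⟨y0, h1, h2, rfl, by simp⟩
  | insert a T ha ih =>
    intro s y0 hs hy0 hy0K hex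
    have hopt' : ∀ t ∈ T, Opt (p ^ t) l f L K := fun t ht => hopt t (mem_insert_of_mem ht)
    have haT : a ∉ T := fun h => lt_irrefl _ (ha a h)
    by_cases hcase : ∃ t ∈ T, ∀ w, w < L → w ∉ K → Good L K (p ^ t) w → Good L K (p ^ a) w
    · obtain ⟨t, htT, ht⟩ := hcase
      obtain ⟨w, hw1, hw2, hw3, hw4⟩ := ih hopt' s y0 (fun t ht => hs t (mem_insert_of_mem ht))
        hy0 hy0K (fun t ht => hex t (mem_insert_of_mem ht))
      refine ⟨w, hw1, hw2, hw3, fun t' ht' => ?_⟩
      rcases mem_insert.1 ht' with h | h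
      · rw [h]
        exact ht w hw1 hw2 (hw4 t htT)
      · exact hw4 t' h
    · push Not at hcase
      obtain ⟨w, hw1, hw2, hw3, hw4⟩ := hex a (mem_insert_self _ _)
      obtain ⟨w', hw1', hw2', hw3', hw4'⟩ := ih hopt' a w (fun t ht => (ha t ht).le) hw1 hw2
        (fun t ht => by
          obtain ⟨z, hz1, hz2, hz3, hz4⟩ := hcase t ht
          unfold Good at hz4
          push Not at hz4
          obtain ⟨y, hy1, hy2, hy3⟩ := hz4
          have hlt : cnt (p ^ a) K w < cnt (p ^ a) K z := lt_of_le_of_lt (hw4 y hy1 hy2) hy3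
          obtain ⟨v, hv1, hv2, hv3, hv4⟩ := dichotomy (p ^ a) (p ^ t)
            (pow_dvd_pow p (ha t ht).le) (pow_pos hp t) hlf hfL K hB hK (hopt' t ht) w z
            hw1 hw2 hz1 hz2 hlt
          exact ⟨v, hv1, hv2, hv3, fun y hy hyK => hv4.trans (hz3 y hy hyK)⟩)
      refine ⟨w', hw1', hw2', ?_, fun t' ht' => ?_⟩
      · rw [← hw3, ← Nat.mod_mod_of_dvd w' (pow_dvd_pow p (hs a (mem_insert_self _ _))), hw3',
          Nat.mod_mod_of_dvd _ (pow_dvd_pow p (hs a (mem_insert_self _ _)))]
      · rcases mem_insert.1 ht' with h | h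
        · rw [h]
          intro y hy hyK
          rw [cnt_congr (p ^ a) K hw3']
          exact hw4 y hy hyK
        · exact hw4' t' h

theorem common_good {p : ℕ} (hp : 0 < p) {l f L : ℕ} (hlf : l ≤ f) (hfL : f ≤ L)
    (K : Finset ℕ) (hB : base l f L ⊆ K) (hK : K ⊆ range L) (T : Finset ℕ)
    (hopt : ∀ t ∈ T, Opt (p ^ t) l f L K) (hne : K.card < L) :
    ∃ w, w < L ∧ w ∉ K ∧ ∀ t ∈ T, Good L K (p ^ t) w := by
  have hA : (range L \ K).Nonempty := by
    rw [← card_pos, card_sdiff_of_subset hK, card_range]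
    omega
  obtain ⟨y0, hy0⟩ := hA
  have hgood : ∀ q, ∃ w, w < L ∧ w ∉ K ∧ Good L K q w := by
    intro q
    obtain ⟨w, hw, hmin⟩ := exists_min_image (range L \ K) (cnt q K) ⟨y0, hy0⟩
    rw [mem_sdiff, mem_range] at hw
    refine ⟨w, hw.1, hw.2, fun y hy hyK => hmin y ?_⟩
    rw [mem_sdiff, mem_range]
    exact ⟨hy, hyK⟩
  rw [mem_sdiff, mem_range] at hy0
  obtain ⟨w, h1, h2, _, h4⟩ := common_good_aux hp hlf hfL K hB hK T hopt 0 y0
    (fun t _ => Nat.zero_le t) hy0.1 hy0.2 (fun t _ => by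
      obtain ⟨w, h1, h2, h3⟩ := hgood (p ^ t)
      exact ⟨w, h1, h2, by simp [Nat.mod_one], h3⟩)
  exact ⟨w, h1, h2, h4⟩

/-- Simultaneously optimal sets exist. -/
theorem exists_opt {p : ℕ} (hp : 0 < p) {l f L : ℕ} (hlf : l ≤ f) (hfL : f ≤ L) (T : Finset ℕ)
    (k : ℕ) (hk : k ≤ f - l) :
    ∃ K : Finset ℕ, base l f L ⊆ K ∧ K ⊆ range L ∧ K.card = l + (L - f) + k ∧
      ∀ t ∈ T, Opt (p ^ t) l f L K := by
  induction k with
  | zero =>
    refine ⟨base l f L, Subset.refl _, ?_, ?_, ?_⟩
    · intro x hx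
      rw [base, mem_union, mem_range, mem_Ico] at hx
      rw [mem_range]
      omega
    · rw [base, card_union_of_disjoint, card_range, Nat.card_Ico, add_zero]
      rw [disjoint_left]
      intro z h1 h2
      rw [mem_range] at h1
      rw [mem_Ico] at h2
      omega
    · intro t _ x hx h1 h2
      rw [base, mem_union, mem_range, mem_Ico] at hx
      omega
  | succ k ih =>
    obtain ⟨K, hB, hK, hcard, hopt⟩ := ih (by omega)
    obtain ⟨w, hw1, hw2, hw3⟩ := common_good hp hlf hfL K hB hK T hopt (by omega)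
    refine ⟨insert w K, hB.trans (subset_insert _ _), ?_, ?_, ?_⟩
    · intro x hx
      rcases mem_insert.1 hx with h | h
      · rw [h]
        exact mem_range.2 hw1
      · exact hK h
    · rw [card_insert_of_notMem hw2, hcard]
      ring
    · intro t ht x hx h1 h2 y hy hyK
      rw [mem_insert, not_or] at hyK
      have hg := hw3 t ht y hy hyK.2
      rw [cnt_insert _ _ _ _ hw2, cnt_insert _ _ _ _ hw2]
      by_cases hwx : w % p ^ t = x % p ^ t
      · rw [if_pos hwx, ← cnt_congr (p ^ t) K hwx]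
        omega
      · rw [if_neg hwx]
        rcases mem_insert.1 hx with h | h
        · exact absurd (by rw [h]) hwx
        · have := hopt t ht x h h1 h2 y hy hyK.2
          omega

end Pool.Agent.H92.Carlitz
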