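import Mathlib

/-! Minors of Hankel matrices: the ideal of `r`-minors of the `m x n` Hankel matrix with given
symbol depends only on `m + n`. -/

namespace Pool.Agent.H92.Carlitz

open Finset

/-- The two ways of distributing `s` unit shifts (rows or columns) agree. -/
theorem shift_identity {r : ℕ} (h : ℕ → ℤ) (R I : Fin r → ℕ) (s : ℕ) :
    ∑ S ∈ powersetCard s (univ : Finset (Fin r)),
      (Matrix.of fun x y => h (R x + (if x ∈ S then 1 else 0) + I y)).det =
    ∑ S ∈ powersetCard s (univ : Finset (Fin r)),
      (Matrix.of fun x y => h (R x + (I y + (if y ∈ S then 1 else 0)))).det := by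
  simp only [Matrix.det_apply, Matrix.of_apply]
  rw [Finset.sum_comm, Finset.sum_comm (s := powersetCard s univ)]
  refine Finset.sum_congr rfl fun σ _ => ?_
  symm
  refine Finset.sum_bij (fun S _ => S.map σ.toEmbedding) ?_ ?_ ?_ ?_
  · intro S hS
    simp only [mem_powersetCard_univ] at hS ⊢
    rw [card_map, hS]
  · intro S _ T _ hST
    exact Finset.map_injective _ hST
  · intro S hS
    refine ⟨S.map σ.symm.toEmbedding, ?_, ?_⟩
    · simp only [mem_powersetCard_univ] at hS ⊢
      rw [card_map, hS]
    · ext x
      simp
  · intro S _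
    congr 1
    refine Finset.prod_congr rfl fun x _ => ?_
    congr 1
    have : (σ x ∈ S.map σ.toEmbedding) ↔ x ∈ S := by simp
    simp only [this]
    omega

/-- All `r`-minors of the Hankel matrix `h (i + j)`, `i < m`, `j < n`, lie in `I`. -/
def HMin (h : ℕ → ℤ) (I : Ideal ℤ) (r m n : ℕ) : Prop :=
  ∀ R J : Fin r → ℕ, (∀ x, R x < m) → (∀ x, J x < n) →
    (Matrix.of fun x y => h (R x + J y)).det ∈ I

theorem HMin.symm {h : ℕ → ℤ} {I : Ideal ℤ} {r m n : ℕ} (H : HMin h I r m n) :
    HMin h I r n m := by
  intro R J hR hJ
  have := H J R hJ hR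
  rw [← Matrix.det_transpose] at this
  convert this using 2
  ext x y
  simp [add_comm]

theorem HMin.step {h : ℕ → ℤ} {I : Ideal ℤ} {r m n : ℕ} (H : HMin h I r (m + 1) n)
    (hrn : r ≤ n) : HMin h I r m (n + 1) := by
  intro R J hR hJ
  obtain ⟨d, hd⟩ : ∃ d, d = ∑ x, (J x) ^ 2 := ⟨_, rfl⟩
  induction d using Nat.strong_induction_on generalizing J with
  | _ d ih =>
  by_cases hn : ∀ x, J x < n
  · exact H R J (fun x => (hR x).trans (Nat.lt_succ_self m)) hn
  -- choose a gap
  obtain ⟨g, hg1, hg2⟩ : ∃ g, g < n + 1 ∧ ∀ x, J x ≠ g := by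
    by_contra hcon
    push Not at hcon
    have h1 : range (n + 1) ⊆ univ.image J := by
      intro g hg
      obtain ⟨x, hx⟩ := hcon g (mem_range.1 hg)
      exact mem_image.2 ⟨x, mem_univ _, hx⟩
    have h2 := card_le_card h1
    have h3 : (univ.image J).card ≤ r := by
      simpa using (card_image_le (s := (univ : Finset (Fin r))) (f := J))
    rw [card_range] at h2
    omega
  have hgn : g < n := by
    push Not at hn
    obtain ⟨x, hx⟩ := hn
    have := hJ x
    have := hg2 x
    omega
  set S0 : Finset (Fin r) := univ.filter fun x => g < J x with hS0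
  set K : Fin r → ℕ := fun x => if g < J x then J x - 1 else J x with hK
  have hKn : ∀ x, K x < n := by
    intro x
    simp only [hK]
    have := hJ x
    have := hg2 x
    split_ifs with h1
    · omega
    · omega
  have hid := shift_identity h R K S0.card
  have hL : (∑ S ∈ powersetCard S0.card (univ : Finset (Fin r)),
      (Matrix.of fun x y => h (R x + (if x ∈ S then 1 else 0) + K y)).det) ∈ I := by
    refine Ideal.sum_mem _ fun S _ => ?_
    refine H (fun x => R x + (if x ∈ S then 1 else 0)) K (fun x => ?_) hKn
    have := hR x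
    split_ifs <;> omega
  rw [hid] at hL
  have hmem : S0 ∈ powersetCard S0.card (univ : Finset (Fin r)) := by simp
  rw [← Finset.add_sum_erase _ _ hmem] at hL
  have hJ0 : (Matrix.of fun x y => h (R x + (K y + (if y ∈ S0 then 1 else 0)))) =
      Matrix.of fun x y => h (R x + J y) := by
    ext x y
    simp only [Matrix.of_apply]
    congr 2
    simp only [hK, hS0, mem_filter, mem_univ, true_and]
    split_ifs with h1
    · omega
    · omega
  rw [hJ0] at hL
  refine (Submodule.add_mem_iff_left _ ?_).1 hL
  refine Ideal.sum_mem _ fun S hS => ?_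
  rw [mem_erase, mem_powersetCard_univ] at hS
  obtain ⟨hne, hcard⟩ := hS
  refine ih (∑ x, (K x + (if x ∈ S then 1 else 0)) ^ 2) ?_
    (fun x => K x + (if x ∈ S then 1 else 0)) (fun x => ?_) rfl
  · -- comparison of the sums of squares
    rw [hd]
    have e1 : ∀ T : Finset (Fin r), ∑ x, (K x + (if x ∈ T then 1 else 0)) ^ 2 =
        ∑ x, (K x) ^ 2 + 2 * ∑ x ∈ T, K x + T.card := by
      intro T
      have : ∀ x, (K x + (if x ∈ T then 1 else 0)) ^ 2 =
          (K x) ^ 2 + 2 * (if x ∈ T then K x else 0) + (if x ∈ T then 1 else 0) := by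
        intro x
        split_ifs <;> ring
      simp only [this, sum_add_distrib, ← mul_sum, sum_ite_mem, univ_inter, sum_const,
        smul_eq_mul, mul_one]
    have e2 : ∑ x, (J x) ^ 2 = ∑ x, (K x + (if x ∈ S0 then 1 else 0)) ^ 2 := by
      refine sum_congr rfl fun x _ => ?_
      congr 1
      simp only [hK, hS0, mem_filter, mem_univ, true_and]
      split_ifs with h1
      · omega
      · omega
    rw [e2, e1, e1, hcard]
    have e3 : ∑ x ∈ S, K x < ∑ x ∈ S0, K x := by
      have c1 : (S \ S0).card = (S0 \ S).card := by
        have := card_sdiff_add_card_inter S S0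
        have := card_sdiff_add_card_inter S0 S
        rw [inter_comm] at this
        omega
      have c2 : 0 < (S \ S0).card := by
        rw [card_pos]
        by_contra hcon
        rw [not_nonempty_iff_eq_empty, sdiff_eq_empty_iff_subset] at hcon
        exact hne (eq_of_subset_of_card_le hcon hcard.ge)
      rw [← sum_inter_add_sum_sdiff S S0 K, ← sum_inter_add_sum_sdiff S0 S K, inter_comm S0 S]
      refine Nat.add_lt_add_left ?_ _
      calc ∑ x ∈ S \ S0, K x < ∑ x ∈ S \ S0, g := by
            refine sum_lt_sum_of_nonempty (card_pos.1 c2) fun x hx => ?_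
            simp only [mem_sdiff, hS0, mem_filter, mem_univ, true_and] at hx
            simp only [hK, if_neg hx.2]
            have := hg2 x
            omega
        _ = ∑ x ∈ S0 \ S, g := by simp [c1]
        _ ≤ ∑ x ∈ S0 \ S, K x := by
            refine sum_le_sum fun x hx => ?_
            simp only [mem_sdiff, hS0, mem_filter, mem_univ, true_and] at hx
            simp only [hK, if_pos hx.1]
            omega
    omega
  · have := hKn x
    split_ifs <;> omega

theorem HMin.iff {h : ℕ → ℤ} {I : Ideal ℤ} {r b : ℕ} (hr : r ≤ b) :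
    HMin h I r b b ↔ HMin h I r r (2 * b - r) := by
  have key : ∀ t, t + r ≤ b → (HMin h I r b b ↔ HMin h I r (b - t) (b + t)) := by
    intro t
    induction t with
    | zero => intro _; simp
    | succ t ih =>
      intro ht
      rw [ih (by omega)]
      constructor
      · intro H
        have e : b - t = (b - (t + 1)) + 1 := by omega
        rw [e] at H
        exact H.step (by omega)
      · intro H
        have H' := H.symm
        have e : b - t = (b - (t + 1)) + 1 := by omega
        rw [e]
        rw [show b + (t + 1) = (b + t) + 1 by omega] at H'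
        exact (H'.step (by omega)).symm
  rw [key (b - r) (by omega), show b - (b - r) = r by omega,
    show b + (b - r) = 2 * b - r by omega]

end Pool.Agent.H92.Carlitz
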