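import Mathlib

/-! The product formula for the maximal minors of the Toeplitz matrix `binom(N, y - i)`. -/

namespace Pool.Agent.H92.Carlitz

open Finset Polynomial

/-- `binom(N, y - i)`, zero if `y < i`. -/
def bz (N y i : ℕ) : ℤ := if i ≤ y then (N.choose (y - i) : ℤ) else 0

/-- The polynomial `Y (Y-1) ... (Y-i+1) * (A-Y) (A-Y-1) ...` of degree `r - 1`. -/
noncomputable def pol (A r i : ℕ) : ℤ[X] :=
  descPochhammer ℤ i * (descPochhammer ℤ (r - 1 - i)).comp (C (A : ℤ) - X)

theorem pol_natDegree (A r i : ℕ) (hi : i < r) : (pol A r i).natDegree < r := by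
  have h1 : (pol A r i).natDegree ≤ i + (r - 1 - i) * 1 := by
    refine natDegree_mul_le.trans ?_
    refine Nat.add_le_add (le_of_eq (descPochhammer_natDegree ℤ i)) ?_
    refine natDegree_comp_le.trans ?_
    refine Nat.mul_le_mul (le_of_eq (descPochhammer_natDegree ℤ _)) ?_
    refine (natDegree_sub_le _ _).trans ?_
    simp
  omega

theorem pol_eval (A r i y : ℕ) (hy : y ≤ A) :
    (pol A r i).eval (y : ℤ) = (y.descFactorial i * (A - y).descFactorial (r - 1 - i) : ℕ) := by
  rw [pol, eval_mul, eval_comp, descPochhammer_eval_eq_descFactorial]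
  simp only [eval_sub, eval_C, eval_X]
  rw [← Nat.cast_sub hy, descPochhammer_eval_eq_descFactorial]
  push_cast
  rfl

theorem bz_mul (N r y i : ℕ) (hy : y < N + r) (hi : i < r) :
    ((y.factorial * (N + r - 1 - y).factorial : ℕ) : ℤ) * bz N y i =
      (N.factorial : ℤ) * (pol (N + r - 1) r i).eval (y : ℤ) := by
  rw [pol_eval _ _ _ _ (by omega)]
  unfold bz
  split_ifs with h
  · rcases le_or_gt y (N + i) with h2 | h2
    · norm_cast
      have e1 := Nat.factorial_mul_descFactorial h
      have e2 : (N + r - 1 - y - (r - 1 - i)).factorial *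
          (N + r - 1 - y).descFactorial (r - 1 - i) = (N + r - 1 - y).factorial :=
        Nat.factorial_mul_descFactorial (by omega)
      have e3 : N + r - 1 - y - (r - 1 - i) = N - (y - i) := by omega
      have e4 : N.choose (y - i) * (y - i).factorial * (N - (y - i)).factorial = N.factorial :=
        Nat.choose_mul_factorial_mul_factorial (by omega)
      rw [e3] at e2
      rw [← e1, ← e2, ← e4]
      ring
    · have e1 : N.choose (y - i) = 0 := Nat.choose_eq_zero_of_lt (by omega)
      have e2 : (N + r - 1 - y).descFactorial (r - 1 - i) = 0 :=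
        Nat.descFactorial_eq_zero_iff_lt.2 (by omega)
      rw [e1, e2]
      simp
  · have e1 : y.descFactorial i = 0 := Nat.descFactorial_eq_zero_iff_lt.2 (by omega)
    rw [e1]
    simp

/-- The matrix of the minor. -/
def bmat (N r : ℕ) (y : Fin r → ℕ) : Matrix (Fin r) (Fin r) ℤ :=
  Matrix.of fun i j => bz N (y j) i

theorem det_pol (A r : ℕ) (v : Fin r → ℤ) :
    (Matrix.of fun i j : Fin r => (pol A r i).eval (v j)).det =
      (Matrix.of fun i j : Fin r => (pol A r i).coeff j).det * (Matrix.vandermonde v).det := by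
  rw [← Matrix.det_transpose (Matrix.vandermonde v), ← Matrix.det_mul]
  congr 1
  ext i j
  rw [Matrix.mul_apply, Matrix.of_apply, eval_eq_sum_range' (pol_natDegree A r i i.2),
    ← Fin.sum_univ_eq_sum_range (fun k => (pol A r i).coeff k * v j ^ k) r]
  simp [Matrix.vandermonde_apply]

theorem det_bmat_mul (N r : ℕ) (y : Fin r → ℕ) (hy : ∀ j, y j < N + r) :
    ((∏ j, ((y j).factorial * (N + r - 1 - y j).factorial) : ℕ) : ℤ) * (bmat N r y).det =
      (N.factorial : ℤ) ^ r *
        ((Matrix.of fun i j : Fin r => (pol (N + r - 1) r i).coeff j).det *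
          (Matrix.vandermonde fun j => (y j : ℤ)).det) := by
  have h1 := Matrix.det_mul_row (fun j => (((y j).factorial * (N + r - 1 - y j).factorial : ℕ) : ℤ))
    (bmat N r y)
  have h2 := Matrix.det_smul (Matrix.of fun i j : Fin r => (pol (N + r - 1) r i).eval (y j : ℤ))
    (N.factorial : ℤ)
  rw [det_pol, Fintype.card_fin] at h2
  rw [Nat.cast_prod, ← h1, ← h2]
  congr 1
  ext i j
  simp only [Matrix.of_apply, bmat, Matrix.smul_apply, smul_eq_mul]
  exact bz_mul N r (y j) i (hy j) i.2

theorem det_bmat_id (N r : ℕ) : (bmat N r fun j => (j : ℕ)).det = 1 := by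
  rw [Matrix.det_of_isUpperTriangular]
  · refine prod_eq_one fun i _ => ?_
    simp [bmat, bz]
  · intro i j hij
    simp only [bmat, Matrix.of_apply, bz]
    rw [if_neg]
    simpa using hij

theorem vandermonde_id (r : ℕ) :
    (Matrix.vandermonde fun j : Fin r => ((j : ℕ) : ℤ)).det =
      ((∏ j ∈ range r, j.factorial : ℕ) : ℤ) := by
  cases r with
  | zero => simp
  | succ n =>
    rw [Matrix.det_vandermonde_id_eq_superFactorial, Nat.prod_range_succ_factorial]

theorem const_eq (N r : ℕ) :
    (N.factorial : ℤ) ^ r *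
      (Matrix.of fun i j : Fin r => (pol (N + r - 1) r i).coeff j).det =
      ((∏ j ∈ range r, (N + j).factorial : ℕ) : ℤ) := by
  have h := det_bmat_mul N r (fun j => (j : ℕ)) (fun j => by have := j.2; omega)
  rw [det_bmat_id, mul_one, vandermonde_id, prod_mul_distrib] at h
  rw [Fin.prod_univ_eq_prod_range (fun j => j.factorial) r] at h
  have h3 : ∏ x : Fin r, (N + r - 1 - (x : ℕ)).factorial = ∏ j ∈ range r, (N + j).factorial := by
    rw [Fin.prod_univ_eq_prod_range (fun j => (N + r - 1 - j).factorial) r,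
      ← prod_range_reflect]
    refine prod_congr rfl fun j hj => ?_
    rw [mem_range] at hj
    congr 1
    omega
  rw [h3, Nat.cast_mul] at h
  have hne : ((∏ j ∈ range r, j.factorial : ℕ) : ℤ) ≠ 0 := by
    exact_mod_cast (prod_pos fun j _ => Nat.factorial_pos j).ne'
  have h4 : ((∏ j ∈ range r, j.factorial : ℕ) : ℤ) *
      ((N.factorial : ℤ) ^ r *
        (Matrix.of fun i j : Fin r => (pol (N + r - 1) r i).coeff j).det) =
      ((∏ j ∈ range r, j.factorial : ℕ) : ℤ) *
        ((∏ j ∈ range r, (N + j).factorial : ℕ) : ℤ) := by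
    rw [h]
    ring
  exact mul_left_cancel₀ hne h4

/-- The product formula for the minors. -/
theorem minor_formula (N r : ℕ) (y : Fin r → ℕ) (hy : ∀ j, y j < N + r) :
    ((∏ j, ((y j).factorial * (N + r - 1 - y j).factorial) : ℕ) : ℤ) * (bmat N r y).det =
      ((∏ j ∈ range r, (N + j).factorial : ℕ) : ℤ) *
        (Matrix.vandermonde fun j => (y j : ℤ)).det := by
  rw [det_bmat_mul N r y hy, ← mul_assoc, const_eq]

end Pool.Agent.H92.Carlitz
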