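import Mathlib

/-! Divisibility of minors does not depend on generators and bases; minors of a submodule in
Smith normal form. -/

namespace Pool.Agent.H92.Carlitz

open Finset Module

variable {M : Type*} [AddCommGroup M]

theorem det_span_cols {κ : Type*} {r : ℕ} (v : κ → M) (d : ℤ) (g : Fin r → (M →ₗ[ℤ] ℤ))
    (h : ∀ J : Fin r → κ, d ∣ (Matrix.of fun x y => g x (v (J y))).det)
    (w : Fin r → M) (hw : ∀ y, w y ∈ Submodule.span ℤ (Set.range v)) :
    d ∣ (Matrix.of fun x y => g x (w y)).det := by
  have key : ∀ S : Finset (Fin r), ∀ w : Fin r → M,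
      (∀ y ∈ S, w y ∈ Submodule.span ℤ (Set.range v)) → (∀ y ∉ S, w y ∈ Set.range v) →
      d ∣ (Matrix.of fun x y => g x (w y)).det := by
    intro S
    induction S using Finset.induction_on with
    | empty =>
      intro w _ hw
      choose J hJ using fun y => hw y (by simp)
      have := h J
      simpa [hJ] using this
    | insert y0 S hy0 ih =>
      intro w hw1 hw2
      -- the linear function of the coordinate `y0`
      have hlin : ∀ u : M, (Matrix.of fun x y => g x (Function.update w y0 u y)).det =
          ∑ x, g x u * (Matrix.of fun x' y => g x' (w y)).adjugate y0 x := by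
        intro u
        have e1 : (Matrix.of fun x y => g x (Function.update w y0 u y)) =
            (Matrix.of fun x' y => g x' (w y)).updateCol y0 (fun x => g x u) := by
          ext x y
          rw [Matrix.updateCol_apply]
          by_cases hy : y = y0
          · subst hy
            simp
          · simp [hy]
        rw [e1, ← Matrix.cramer_apply, Matrix.cramer_eq_adjugate_mulVec, Matrix.mulVec,
          dotProduct]
        exact sum_congr rfl fun x _ => mul_comm _ _
      let φ : M →ₗ[ℤ] ℤ := ∑ x, ((Matrix.of fun x' y => g x' (w y)).adjugate y0 x) • g x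
      have hφ : ∀ u, (Matrix.of fun x y => g x (Function.update w y0 u y)).det = φ u := by
        intro u
        rw [hlin u]
        simp [φ, LinearMap.sum_apply, mul_comm]
      have hmem : w y0 ∈ Submodule.comap φ (Ideal.span {d}) := by
        have hle : Submodule.span ℤ (Set.range v) ≤ Submodule.comap φ (Ideal.span {d}) := by
          rw [Submodule.span_le]
          rintro u ⟨k, rfl⟩
          simp only [SetLike.mem_coe, Submodule.mem_comap]
          rw [Ideal.mem_span_singleton, ← hφ]
          refine ih (Function.update w y0 (v k)) (fun y hy => ?_) (fun y hy => ?_)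
          · rw [Function.update_of_ne (ne_of_mem_of_not_mem hy hy0)]
            exact hw1 y (mem_insert_of_mem hy)
          · by_cases hyy : y = y0
            · subst hyy
              simp
            · rw [Function.update_of_ne hyy]
              exact hw2 y (by simp [hyy, hy])
        exact hle (hw1 y0 (mem_insert_self _ _))
      rw [Submodule.mem_comap, Ideal.mem_span_singleton, ← hφ, Function.update_eq_self] at hmem
      exact hmem
  exact key univ w (fun y _ => hw y) (fun y hy => absurd (mem_univ y) hy)

theorem det_span_rows {ι : Type*} {r : ℕ} (c : ι → (M →ₗ[ℤ] ℤ)) (d : ℤ) (w : Fin r → M)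
    (h : ∀ R : Fin r → ι, d ∣ (Matrix.of fun x y => c (R x) (w y)).det)
    (g : Fin r → (M →ₗ[ℤ] ℤ)) (hg : ∀ x, g x ∈ Submodule.span ℤ (Set.range c)) :
    d ∣ (Matrix.of fun x y => g x (w y)).det := by
  have h1 := det_span_cols (M := (M →ₗ[ℤ] ℤ)) c d
    (fun y => LinearMap.applyₗ (w y)) (fun J => by
      have := h J
      rw [← Matrix.det_transpose] at this
      exact this) g hg
  rw [← Matrix.det_transpose] at h1
  exact h1

/-- Minors with respect to generators of the module and of the functionals. -/
theorem det_span {ι κ : Type*} {r : ℕ} (c : ι → (M →ₗ[ℤ] ℤ)) (v : κ → M) (d : ℤ)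
    (h : ∀ (R : Fin r → ι) (J : Fin r → κ), d ∣ (Matrix.of fun x y => c (R x) (v (J y))).det)
    (g : Fin r → (M →ₗ[ℤ] ℤ)) (hg : ∀ x, g x ∈ Submodule.span ℤ (Set.range c))
    (w : Fin r → M) (hw : ∀ y, w y ∈ Submodule.span ℤ (Set.range v)) :
    d ∣ (Matrix.of fun x y => g x (w y)).det :=
  det_span_cols v d g (fun J => det_span_rows c d (fun y => v (J y)) (fun R => h R J) g hg) w hw

theorem coord_span {ι : Type*} [Fintype ι] [DecidableEq ι] (β : Basis ι ℤ M) (g : M →ₗ[ℤ] ℤ) :
    g ∈ Submodule.span ℤ (Set.range β.coord) := by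
  have : g = ∑ i, g (β i) • β.coord i := by
    refine β.ext fun j => ?_
    simp
  rw [this]
  exact Submodule.sum_mem _ fun i _ =>
    Submodule.smul_mem _ _ (Submodule.subset_span ⟨i, rfl⟩)

theorem det_diag {ι : Type*} [Fintype ι] [DecidableEq ι] {r : ℕ} (β : Basis ι ℤ M) (a : ι → ℤ)
    (R J : Fin r → ι) :
    (Matrix.of fun x y => β.coord (R x) (a (J y) • β (J y))).det =
      (∏ y, a (J y)) * (Matrix.of fun x y => if J y = R x then (1 : ℤ) else 0).det := by
  rw [← Matrix.det_mul_row]
  congr 1
  ext x y
  simp only [Matrix.of_apply, map_smul, smul_eq_mul, Basis.coord_apply, Basis.repr_self,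
    Finsupp.single_apply]

theorem minors_iff {b : ℕ} (C : Matrix (Fin b) (Fin b) ℤ)
    (h : Module.finrank ℤ (LinearMap.range C.mulVecLin) = Module.finrank ℤ (Fin b → ℤ))
    (r : ℕ) (d : ℤ) :
    (∀ R J : Fin r → Fin b, d ∣ (Matrix.of fun x y => C (R x) (J y)).det) ↔
      ∀ J : Fin r → Fin b, Function.Injective J →
        d ∣ ∏ y, Submodule.smithNormalFormCoeffs (Pi.basisFun ℤ (Fin b)) h (J y) := by
  set β0 := Pi.basisFun ℤ (Fin b) with hβ0
  set a := Submodule.smithNormalFormCoeffs β0 h with ha
  set β := Submodule.smithNormalFormTopBasis β0 h with hβ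
  set γ := Submodule.smithNormalFormBotBasis β0 h with hγ
  have hγβ : ∀ i, (γ i : Fin b → ℤ) = a i • β i := Submodule.smithNormalFormBotBasis_def β0 h
  have hspan1 : ∀ i, a i • β i ∈ Submodule.span ℤ (Set.range fun j => C.col j) := by
    intro i
    rw [← hγβ i]
    have hle : LinearMap.range C.mulVecLin ≤
        Submodule.span ℤ (Set.range fun j => C.col j) :=
      le_of_eq (Matrix.range_mulVecLin C)
    exact hle (γ i).2
  have hspan2 : ∀ j, C.col j ∈ Submodule.span ℤ (Set.range fun i => a i • β i) := by
    intro j
    have hm : C.col j ∈ LinearMap.range C.mulVecLin := by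
      rw [Matrix.range_mulVecLin]
      exact Submodule.subset_span ⟨j, rfl⟩
    obtain ⟨c, hc⟩ := γ.mem_submodule_iff'.1 hm
    rw [hc]
    refine Submodule.sum_mem _ fun i _ => Submodule.smul_mem _ _ ?_
    rw [hγβ i]
    exact Submodule.subset_span ⟨i, rfl⟩
  have hC : ∀ R J : Fin r → Fin b, (Matrix.of fun x y => C (R x) (J y)) =
      Matrix.of fun x y => β0.coord (R x) (C.col (J y)) := by
    intro R J
    ext x y
    simp [hβ0, Matrix.col]
  constructor
  · intro H J hJ
    have h1 := det_span (fun i => β0.coord i) (fun j => C.col j) d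
      (fun R J => by rw [← hC]; exact H R J)
      (fun x => β.coord (J x)) (fun x => coord_span β0 _) (fun y => a (J y) • β (J y))
      (fun y => hspan1 _)
    rw [det_diag β a J J] at h1
    have h2 : (Matrix.of fun x y => if J y = J x then (1 : ℤ) else 0) =
        (1 : Matrix (Fin r) (Fin r) ℤ) := by
      ext x y
      rw [Matrix.of_apply, Matrix.one_apply]
      by_cases hxy : x = y
      · rw [if_pos hxy, if_pos (by rw [hxy])]
      · rw [if_neg hxy, if_neg (fun h => hxy (hJ h).symm)]
    rwa [h2, Matrix.det_one, mul_one] at h1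
  · intro H R J
    rw [hC]
    refine det_span (fun i => β.coord i) (fun i => a i • β i) d (fun R J => ?_)
      (fun x => β0.coord (R x)) (fun x => coord_span β _) (fun y => C.col (J y))
      (fun y => hspan2 _)
    rw [det_diag β a R J]
    by_cases hJ : Function.Injective J
    · exact Dvd.dvd.mul_right (H J hJ) _
    · have h0 : (Matrix.of fun x y => if J y = R x then (1 : ℤ) else 0).det = 0 := by
        simp only [Function.Injective] at hJ
        push Not at hJ
        obtain ⟨x, x', hxx, hne⟩ := hJ
        refine Matrix.det_zero_of_column_eq hne fun y => ?_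
        simp [hxx]
      rw [h0, mul_zero]
      exact dvd_zero d

end Pool.Agent.H92.Carlitz
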