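import Pool.Agent.H92.Carlitz.Minor

/-! Pairs of congruent elements, and the `p`-adic valuation of the minors. -/

namespace Pool.Agent.H92.Carlitz

open Finset

/-- Number of elements of `K` congruent to `x` modulo `q`. -/
def cnt (q : ℕ) (K : Finset ℕ) (x : ℕ) : ℕ := (K.filter fun z => z % q = x % q).card

/-- Number of unordered pairs of distinct elements of `K` congruent modulo `q`. -/
def pr (q : ℕ) (K : Finset ℕ) : ℕ := ∑ x ∈ K, (K.filter fun z => x < z ∧ z % q = x % q).card

theorem cnt_insert (q : ℕ) (K : Finset ℕ) (w x : ℕ) (hw : w ∉ K) :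
    cnt q (insert w K) x = cnt q K x + if w % q = x % q then 1 else 0 := by
  unfold cnt
  rw [filter_insert]
  split_ifs with h
  · rw [card_insert_of_notMem (by simp [hw])]
  · simp

theorem cnt_insert_of_eq (q : ℕ) (K : Finset ℕ) (w x : ℕ) (hw : w ∉ K) (h : w % q = x % q) :
    cnt q (insert w K) x = cnt q K x + 1 := by
  rw [cnt_insert q K w x hw, if_pos h]

theorem cnt_insert_of_ne (q : ℕ) (K : Finset ℕ) (w x : ℕ) (hw : w ∉ K) (h : w % q ≠ x % q) :
    cnt q (insert w K) x = cnt q K x := by
  rw [cnt_insert q K w x hw, if_neg h, add_zero]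

theorem cnt_congr (q : ℕ) (K : Finset ℕ) {x y : ℕ} (h : x % q = y % q) :
    cnt q K x = cnt q K y := by
  unfold cnt
  rw [h]

theorem pr_insert (q : ℕ) (K : Finset ℕ) (w : ℕ) (hw : w ∉ K) :
    pr q (insert w K) = pr q K + cnt q K w := by
  unfold pr cnt
  rw [sum_insert hw]
  have h1 : ∀ x ∈ K, ((insert w K).filter fun z => x < z ∧ z % q = x % q).card =
      (K.filter fun z => x < z ∧ z % q = x % q).card + (if x < w ∧ w % q = x % q then 1 else 0) := by
    intro x _
    rw [filter_insert]
    split_ifs with h
    · rw [card_insert_of_notMem (by simp [hw])]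
    · simp
  rw [sum_congr rfl h1, sum_add_distrib]
  have h2 : ((insert w K).filter fun z => w < z ∧ z % q = w % q) =
      K.filter fun z => w < z ∧ z % q = w % q := by
    rw [filter_insert, if_neg (by simp)]
  rw [h2, ← card_filter]
  have h3 : (K.filter fun z => z % q = w % q).card =
      (K.filter fun z => w < z ∧ z % q = w % q).card +
        (K.filter fun x => x < w ∧ w % q = x % q).card := by
    rw [← card_union_of_disjoint]
    · congr 1
      ext z
      simp only [mem_union, mem_filter]
      constructor
      · rintro ⟨hz, hzq⟩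
        rcases lt_trichotomy z w with h | h | h
        · exact Or.inr ⟨hz, h, hzq.symm⟩
        · exact absurd (h ▸ hz) hw
        · exact Or.inl ⟨hz, h, hzq⟩
      · rintro (⟨hz, _, h⟩ | ⟨hz, _, h⟩)
        · exact ⟨hz, h⟩
        · exact ⟨hz, h.symm⟩
    · rw [disjoint_left]
      intro z hz hz'
      simp only [mem_filter] at hz hz'
      omega
  rw [h3]
  omega

/-- The pairs counted by residue class. -/
theorem pr_eq_sum_choose (q : ℕ) (hq : 0 < q) (K : Finset ℕ) :
    pr q K = ∑ η ∈ range q, (cnt q K η).choose 2 := by
  induction K using Finset.induction_on with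
  | empty => simp [pr, cnt]
  | insert w K hw ih =>
    rw [pr_insert q K w hw, ih]
    have hmem : w % q ∈ range q := mem_range.2 (Nat.mod_lt _ hq)
    rw [← add_sum_erase _ _ hmem, ← add_sum_erase _ _ hmem]
    have h1 : cnt q (insert w K) (w % q) = cnt q K (w % q) + 1 :=
      cnt_insert_of_eq q K w _ hw (by simp)
    have h2 : cnt q K (w % q) = cnt q K w := cnt_congr q K (by simp)
    have h3 : ∀ η ∈ (range q).erase (w % q), (cnt q (insert w K) η).choose 2 =
        (cnt q K η).choose 2 := by
      intro η hη
      rw [mem_erase, mem_range] at hη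
      rw [cnt_insert_of_ne q K w η hw]
      rw [Nat.mod_eq_of_lt hη.2]
      exact fun h => hη.1 h.symm
    have h4 : (cnt q K w + 1).choose 2 = cnt q K w + (cnt q K w).choose 2 := by
      rw [Nat.choose_succ_succ' _ 1, Nat.choose_one_right]
    rw [sum_congr rfl h3, h1, h2, h4]
    ring

theorem sum_cnt (q : ℕ) (hq : 0 < q) (K : Finset ℕ) :
    ∑ η ∈ range q, cnt q K η = K.card := by
  induction K using Finset.induction_on with
  | empty => simp [cnt]
  | insert w K hw ih =>
    have hmem : w % q ∈ range q := mem_range.2 (Nat.mod_lt _ hq)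
    rw [card_insert_of_notMem hw, ← ih, ← add_sum_erase _ _ hmem, ← add_sum_erase _ _ hmem]
    have h1 : cnt q (insert w K) (w % q) = cnt q K (w % q) + 1 :=
      cnt_insert_of_eq q K w _ hw (by simp)
    have h3 : ∀ η ∈ (range q).erase (w % q), cnt q (insert w K) η = cnt q K η := by
      intro η hη
      rw [mem_erase, mem_range] at hη
      rw [cnt_insert_of_ne q K w η hw]
      rw [Nat.mod_eq_of_lt hη.2]
      exact fun h => hη.1 h.symm
    rw [sum_congr rfl h3, h1]
    ring

/-- Elements of `[0, n)` congruent to `n`. -/
theorem cnt_range_self (q : ℕ) (hq : 0 < q) (n : ℕ) : cnt q (range n) n = n / q := by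
  unfold cnt
  have : (range n).filter (fun z => z % q = n % q) =
      (range (n / q)).image fun i => q * i + n % q := by
    ext z
    simp only [mem_filter, mem_range, mem_image]
    constructor
    · rintro ⟨h1, h2⟩
      refine ⟨z / q, ?_, ?_⟩
      · have e1 := Nat.div_add_mod z q
        have e2 := Nat.div_add_mod n q
        by_contra hcon
        push Not at hcon
        have := Nat.mul_le_mul_left q hcon
        omega
      · rw [← h2]
        exact Nat.div_add_mod z q
    · rintro ⟨i, hi, rfl⟩
      refine ⟨?_, ?_⟩
      · have e2 := Nat.div_add_mod n q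
        have : q * (i + 1) ≤ q * (n / q) := Nat.mul_le_mul_left q hi
        have h3 := Nat.mod_lt n hq
        rw [mul_add] at this
        omega
      · rw [Nat.mul_add_mod, Nat.mod_mod]
  rw [this, card_image_of_injective, card_range]
  intro i j hij
  simp only [add_left_inj] at hij
  exact Nat.eq_of_mul_eq_mul_left hq hij

theorem pr_range (q : ℕ) (hq : 0 < q) (n : ℕ) : pr q (range n) = ∑ i ∈ range n, i / q := by
  induction n with
  | zero => simp [pr]
  | succ n ih =>
    rw [range_add_one, pr_insert q _ n (by simp), ih, sum_insert (by simp), cnt_range_self q hq]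
    omega

/-- The size of the class of `y` in `[0, L)`. -/
theorem cnt_range_of_lt (q : ℕ) (hq : 0 < q) (L y : ℕ) (hy : y < L) :
    cnt q (range L) y = y / q + (L - 1 - y) / q + 1 := by
  obtain ⟨d, rfl⟩ := Nat.exists_eq_add_of_lt hy
  have : y + d + 1 - 1 - y = d := by omega
  rw [this]
  induction d with
  | zero =>
    rw [add_zero, range_add_one, cnt_insert_of_eq q _ y y (by simp) rfl, cnt_range_self q hq]
    simp
  | succ d ih =>
    have ih' := ih (by omega) (by omega)
    rw [range_add_one, cnt_insert q _ _ y (by simp), show y + (d + 1) = y + d + 1 by ring, ih']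
    have h1 : ((y + d + 1) % q = y % q) ↔ q ∣ (d + 1) := by
      constructor
      · intro h
        have : (y + (d + 1)) ≡ y + 0 [MOD q] := by
          simpa [Nat.ModEq, add_assoc] using h
        exact (Nat.modEq_zero_iff_dvd.1 (Nat.ModEq.add_left_cancel' y this))
      · rintro ⟨k, hk⟩
        rw [show y + d + 1 = y + (d + 1) by ring, hk]
        simp
    rw [Nat.succ_div]
    simp only [h1]
    ring

/-- The complement identity. -/
theorem pr_compl (q : ℕ) (hq : 0 < q) (L : ℕ) (J : Finset ℕ) (hJ : J ⊆ range L) :
    pr q J + ∑ i ∈ range L, i / q =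
      pr q (range L \ J) + ∑ y ∈ J, (y / q + (L - 1 - y) / q) := by
  induction J using Finset.induction_on with
  | empty => simp [pr_range q hq]; simp [pr]
  | insert y J hy ih =>
    have hyL : y ∈ range L := hJ (mem_insert_self _ _)
    have hJ' : J ⊆ range L := fun z hz => hJ (mem_insert_of_mem hz)
    have ih' := ih hJ'
    rw [pr_insert q J y hy, sum_insert hy]
    have e1 : range L \ J = insert y (range L \ insert y J) := by
      ext z
      simp only [mem_sdiff, mem_insert, mem_range]
      constructor
      · rintro ⟨h1, h2⟩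
        by_cases h : z = y
        · exact Or.inl h
        · exact Or.inr ⟨h1, by tauto⟩
      · rintro (h | h)
        · subst h
          exact ⟨mem_range.1 hyL, hy⟩
        · exact ⟨h.1, by tauto⟩
    have hy2 : y ∉ range L \ insert y J := by simp
    have e2 : pr q (range L \ J) = pr q (range L \ insert y J) + cnt q (range L \ insert y J) y := by
      rw [e1, pr_insert q _ y hy2]
    have e3 : cnt q (range L) y = cnt q J y + cnt q (range L \ insert y J) y + 1 := by
      have : cnt q (range L) y = cnt q J y + cnt q (range L \ J) y := by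
        unfold cnt
        rw [← card_union_of_disjoint]
        · congr 1
          ext z
          simp only [mem_union, mem_filter, mem_sdiff]
          constructor
          · rintro ⟨h1, h2⟩
            by_cases h : z ∈ J
            · exact Or.inl ⟨h, h2⟩
            · exact Or.inr ⟨⟨h1, h⟩, h2⟩
          · rintro (⟨h1, h2⟩ | ⟨⟨h1, _⟩, h2⟩)
            · exact ⟨hJ' h1, h2⟩
            · exact ⟨h1, h2⟩
        · rw [disjoint_left]
          intro z hz hz'
          simp only [mem_filter, mem_sdiff] at hz hz'
          exact hz'.1.2 hz.1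
      rw [this]
      conv_lhs => rw [e1]
      rw [cnt_insert_of_eq q _ y y hy2 rfl, add_assoc]
    have e4 := cnt_range_of_lt q hq L y (mem_range.1 hyL)
    rw [e2] at ih'
    omega

end Pool.Agent.H92.Carlitz
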